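import Mathlib
import Pool.Agent.MP_450e1b_mp.Mg.Graph

/-
The shadow of a pure state: overlaps of Pauli translates with the spin-flipped state, the shadow
identity on sets, and positive kernels coming from Gram matrices of Pauli translates.
-/

namespace Pool.Agent.MP_450e1b_mp

open Finset

section general
variable {ι : Type*} [Fintype ι] [DecidableEq ι]

/-- Pauli labels. -/
abbrev Lb (ι : Type*) := (ι → Z2) × (ι → Z2)

/-- The symbol of a label at a site. -/
def sy (p : Lb ι) (i : ι) : Z2 × Z2 := (p.1 i, p.2 i)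

/-- The support of a label. -/
def supp (p : Lb ι) : Finset ι := univ.filter (fun i => sy p i ≠ 0)

omit [DecidableEq ι] in
theorem mem_supp {p : Lb ι} {i : ι} : i ∈ supp p ↔ sy p i ≠ 0 := by simp [supp]

omit [Fintype ι] [DecidableEq ι] in
theorem sy_add (p q : Lb ι) (i : ι) : sy (p + q) i = sy p i + sy q i := rfl

theorem sym_add_eq_zero (a b : Z2 × Z2) : a + b = 0 ↔ a = b := by revert a b; decide

theorem supp_add_subset (p q : Lb ι) : supp (p + q) ⊆ supp p ∪ supp q := by
  intro i hi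
  rw [mem_union, mem_supp, mem_supp]
  rw [mem_supp, sy_add] at hi
  by_contra h
  push Not at h
  exact hi (by rw [h.1, h.2, add_zero])

omit [DecidableEq ι] in
theorem mem_supp_add_left {p q : Lb ι} {i : ι} (h1 : i ∈ supp p) (h2 : i ∉ supp q) :
    i ∈ supp (p + q) := by
  rw [mem_supp] at *
  rw [sy_add, not_not.mp h2, add_zero]; exact h1

omit [DecidableEq ι] in
theorem mem_supp_add_right {p q : Lb ι} {i : ι} (h1 : i ∉ supp p) (h2 : i ∈ supp q) :
    i ∈ supp (p + q) := by
  rw [add_comm]; exact mem_supp_add_left h2 h1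

omit [DecidableEq ι] in
theorem supp_eq_empty {p : Lb ι} : supp p = ∅ ↔ p = 0 := by
  constructor
  · intro h
    have : ∀ i, sy p i = 0 := fun i => by
      by_contra hi
      have : i ∈ supp p := mem_supp.mpr hi
      simp [h] at this
    exact Prod.ext (funext fun i => congrArg Prod.fst (this i))
      (funext fun i => congrArg Prod.snd (this i))
  · rintro rfl
    ext i
    simp [mem_supp, sy]

omit [Fintype ι] [DecidableEq ι] in
theorem lb_add_eq_zero {p q : Lb ι} (h : p + q = 0) : p = q := by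
  have h1 : p + p = 0 := Prod.ext (cfg_add_self _) (cfg_add_self _)
  exact (add_left_cancel (h.trans h1.symm)).symm

/-- The weight modulo two. -/
def wz (p : Lb ι) : Z2 := ∑ i, (p.1 i + p.2 i + p.1 i * p.2 i)

omit [DecidableEq ι] in
theorem wz_eq (p : Lb ι) : wz p = ((supp p).card : Z2) := by
  unfold wz supp
  rw [Finset.card_filter]
  push_cast
  apply Finset.sum_congr rfl
  intro i _
  have : ∀ a b : Z2, a + b + a * b = if (a, b) ≠ 0 then 1 else 0 := by decide
  exact this _ _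

theorem sg_natCast (m : ℕ) : sg (m : Z2) = (-1) ^ m := by
  induction m with
  | zero => simp
  | succ m ih => push_cast; rw [sg_add, ih, sg_one, pow_succ]

omit [DecidableEq ι] in
theorem sp_eq_wz (p q : Lb ι) : sp p q = wz p + wz q + wz (p + q) := by
  unfold sp wz dot
  simp only [← Finset.sum_add_distrib, Prod.fst_add, Prod.snd_add, Pi.add_apply]
  apply Finset.sum_congr rfl
  intro i _
  have : ∀ a b c d : Z2, d * a + b * c = a + b + a * b + (c + d + c * d)
      + (a + c + (b + d) + (a + c) * (b + d)) := by decide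
  exact this _ _ _ _

omit [DecidableEq ι] in
theorem sp_eq_card (p q : Lb ι) :
    sp p q = (((supp p).card + (supp q).card + (supp (p + q)).card : ℕ) : Z2) := by
  rw [sp_eq_wz, wz_eq, wz_eq, wz_eq]; push_cast; rfl

omit [DecidableEq ι] in
theorem sp_eq_one {p q : Lb ι}
    (h : ((supp p).card + (supp q).card + (supp (p + q)).card) % 2 = 1) : sp p q = 1 := by
  rw [sp_eq_card, ← ZMod.natCast_mod, h]; rfl

omit [DecidableEq ι] in
theorem sp_eq_zero {p q : Lb ι}
    (h : ((supp p).card + (supp q).card + (supp (p + q)).card) % 2 = 0) : sp p q = 0 := by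
  rw [sp_eq_card, ← ZMod.natCast_mod, h]; rfl

omit [DecidableEq ι] in
theorem sp_add_right (p q r : Lb ι) : sp p (q + r) = sp p q + sp p r := by
  simp only [sp, Prod.fst_add, Prod.snd_add, dot_add_left, dot_add_right]; ring

omit [DecidableEq ι] in
theorem sp_comm (p q : Lb ι) : sp p q = sp q p := by unfold sp; ring

omit [DecidableEq ι] in
theorem sp_self (p : Lb ι) : sp p p = 0 := z2_add_self _

theorem sgc_mul_self (a : Z2) : (sg a : ℂ) * sg a = 1 := by exact_mod_cast sg_mul_self a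

theorem star_ip (φ ψ : (ι → Z2) → ℂ) : star (ip φ ψ) = ip ψ φ := by
  unfold ip
  rw [star_sum]
  apply Finset.sum_congr rfl
  intro x _
  rw [star_mul', star_star, mul_comm]

theorem ip_unitary (s t : ι → Z2) (φ ψ : (ι → Z2) → ℂ) :
    ip (pauli s t φ) (pauli s t ψ) = ip φ ψ := by
  rw [ip_pauli, cfg_add_self, cfg_add_self]; simp

theorem star_expv (ψ : (ι → Z2) → ℂ) (s t : ι → Z2) :
    star (expv ψ s t) = (sg (dot t s) : ℂ) * expv ψ s t := by
  unfold expv
  rw [star_ip]
  have := ip_pauli s t 0 0 ψ ψ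
  simpa using this

theorem complete (u v v' u' : (ι → Z2) → ℂ) :
    ∑ p : Lb ι, ip u (pauli p.1 p.2 v) * ip (pauli p.1 p.2 v') u'
      = 2 ^ Fintype.card ι * ip u u' * ip v' v := by
  rw [Fintype.sum_prod_type]
  have h1 : ∀ s : ι → Z2, ∑ t : ι → Z2, ip u (pauli s t v) * ip (pauli s t v') u'
      = 2 ^ Fintype.card ι * ∑ x, star (u x) * u' x * (star (v' (x + s)) * v (x + s)) := by
    intro s
    have h2 : ∀ t : ι → Z2, ip u (pauli s t v) * ip (pauli s t v') u'
        = ∑ x, ∑ y, (sg (dot (x + y) t) : ℂ)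
          * (star (u x) * u' y * (star (v' (y + s)) * v (x + s))) := by
      intro t
      unfold ip
      rw [Finset.sum_mul_sum]
      refine Finset.sum_congr rfl fun x _ => Finset.sum_congr rfl fun y _ => ?_
      simp only [pauli, star_mul', star_intCast, dot_add_left, sg_add, dot_comm x, dot_comm y]
      push_cast
      ring
    simp only [h2]
    rw [Finset.sum_comm, Finset.mul_sum]
    refine Finset.sum_congr rfl fun x _ => ?_
    rw [Finset.sum_comm, Finset.sum_eq_single x]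
    · rw [← Finset.sum_mul, cfg_add_self]
      simp
    · intro y _ hy
      rw [← Finset.sum_mul]
      have h3 := sum_sg_dot (x + y)
      have hne : x + y ≠ 0 := by
        intro h0
        apply hy
        have : x + (x + y) = x + 0 := by rw [h0]
        rwa [← add_assoc, cfg_add_self, zero_add, add_zero] at this
      rw [if_neg hne] at h3
      have h4 : ∑ t, (sg (dot (x + y) t) : ℂ) = 0 := by exact_mod_cast h3
      rw [h4, zero_mul]
    · simp
  simp only [h1]
  rw [← Finset.mul_sum, Finset.sum_comm, mul_assoc]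
  congr 1
  unfold ip
  rw [Finset.sum_mul]
  refine Finset.sum_congr rfl fun x _ => ?_
  rw [← Finset.mul_sum]
  congr 1
  exact Equiv.sum_comp (Equiv.addLeft x) (fun y => star (v' y) * v y)

/-- The spin-flipped state. -/
def flip (ψ : (ι → Z2) → ℂ) : (ι → Z2) → ℂ := pauli 1 1 (fun x => star (ψ x))

theorem ip_star (φ ψ : (ι → Z2) → ℂ) :
    ip (fun x => star (φ x)) (fun x => star (ψ x)) = star (ip φ ψ) := by
  unfold ip
  rw [star_sum]
  exact Finset.sum_congr rfl fun x _ => by rw [star_mul']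

theorem expv_flip (ψ : (ι → Z2) → ℂ) (q : Lb ι) :
    expv (flip ψ) q.1 q.2 = (sg (wz q) : ℂ) * expv ψ q.1 q.2 := by
  unfold flip
  have h1 := pauli_swap q ((1, 1) : Lb ι) (fun x => star (ψ x))
  have h2 : pauli q.1 q.2 (fun x => star (ψ x)) = fun x => star (pauli q.1 q.2 ψ x) := by
    funext x; simp [pauli]
  have h3 : wz q = sp q (1, 1) + dot q.2 q.1 := by
    unfold wz sp dot
    simp only [← Finset.sum_add_distrib, Pi.one_apply]
    exact Finset.sum_congr rfl fun i _ => by ring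
  unfold expv
  simp only at h1
  rw [h1, ← one_smul ℂ (pauli 1 1 fun x => star (ψ x)), ip_smul, ip_unitary, h2, ip_star]
  have h4 := star_expv ψ q.1 q.2
  unfold expv at h4
  rw [h4, h3, sg_add]
  push_cast
  simp only [star_one]
  ring

theorem ip_flip (ψ : (ι → Z2) → ℂ) (hψ : ip ψ ψ = 1) : ip (flip ψ) (flip ψ) = 1 := by
  unfold flip
  rw [ip_unitary, ip_star, hψ, star_one]

/-- Squared Pauli expectations. -/
noncomputable def aa (ψ : (ι → Z2) → ℂ) (p : Lb ι) : ℝ := Complex.normSq (expv ψ p.1 p.2)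

/-- Overlap of a Pauli translate of `ψ` with `φ`. -/
noncomputable def cc (ψ φ : (ι → Z2) → ℂ) (p : Lb ι) : ℂ := ip (pauli p.1 p.2 ψ) φ

/-- The shadow weights. -/
noncomputable def bb (ψ : (ι → Z2) → ℂ) (p : Lb ι) : ℝ := Complex.normSq (cc ψ (flip ψ) p)

theorem aa_nonneg (ψ : (ι → Z2) → ℂ) (p : Lb ι) : 0 ≤ aa ψ p := Complex.normSq_nonneg _
theorem bb_nonneg (ψ : (ι → Z2) → ℂ) (p : Lb ι) : 0 ≤ bb ψ p := Complex.normSq_nonneg _

theorem mul_star_eq (z : ℂ) : z * star z = (Complex.normSq z : ℂ) := Complex.mul_conj z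

theorem shadow_transform (ψ : (ι → Z2) → ℂ) (q : Lb ι) :
    ∑ p : Lb ι, (sg (sp p q) : ℝ) * bb ψ p = 2 ^ Fintype.card ι * ((sg (wz q) : ℝ) * aa ψ q) := by
  have h1 := complete (pauli q.1 q.2 (flip ψ)) (pauli q.1 q.2 ψ) ψ (flip ψ)
  have h2 : ∀ p : Lb ι, ip (pauli q.1 q.2 (flip ψ)) (pauli p.1 p.2 (pauli q.1 q.2 ψ))
      * ip (pauli p.1 p.2 ψ) (flip ψ) = (((sg (sp p q) : ℝ) * bb ψ p : ℝ) : ℂ) := by
    intro p
    rw [pauli_swap p q, ← one_smul ℂ (pauli q.1 q.2 (flip ψ)), ip_smul, ip_unitary,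
      ← star_ip (pauli p.1 p.2 ψ)]
    unfold bb cc
    push_cast
    rw [← mul_star_eq]
    simp only [star_one]
    ring
  simp only [h2] at h1
  have h3 : ip (pauli q.1 q.2 (flip ψ)) (flip ψ) = star (expv (flip ψ) q.1 q.2) := by
    unfold expv; rw [star_ip]
  rw [h3, expv_flip, star_mul', star_intCast] at h1
  have h4 : (2 : ℂ) ^ Fintype.card ι * (sg (wz q) * star (expv ψ q.1 q.2))
      * ip ψ (pauli q.1 q.2 ψ)
      = ((2 ^ Fintype.card ι * ((sg (wz q) : ℝ) * aa ψ q) : ℝ) : ℂ) := by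
    unfold aa
    push_cast
    rw [← mul_star_eq]
    unfold expv
    ring
  rw [h4] at h1
  exact_mod_cast h1

theorem bb_parity (ψ : (ι → Z2) → ℂ) (p : Lb ι)
    (h : ((supp p).card + Fintype.card ι) % 2 = 1) : bb ψ p = 0 := by
  have h1 : cc ψ (flip ψ) p = (sg (dot (p.2 + 1) (p.1 + 1)) : ℂ) * cc ψ (flip ψ) p := by
    unfold cc ip flip
    rw [Finset.mul_sum, ← Equiv.sum_comp (Equiv.addRight (p.1 + 1))]
    refine Finset.sum_congr rfl fun x _ => ?_
    have e1 : x + (p.1 + 1) + p.1 = x + 1 := by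
      rw [add_assoc, add_right_comm, cfg_add_self, zero_add]
    have e2 : x + (p.1 + 1) + 1 = x + p.1 := by
      rw [add_assoc, add_assoc, cfg_add_self, add_zero]
    simp only [pauli, Equiv.coe_addRight, e1, e2, star_mul', star_intCast, dot_add_left,
      dot_add_right, sg_add]
    push_cast
    ring
  have h2 : dot (p.2 + 1) (p.1 + 1) = 1 := by
    have : dot (p.2 + 1) (p.1 + 1) = wz p + (Fintype.card ι : Z2) := by
      unfold dot wz
      rw [← Finset.card_univ, Finset.card_eq_sum_ones]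
      push_cast
      rw [← Finset.sum_add_distrib]
      exact Finset.sum_congr rfl fun i _ => by simp only [Pi.add_apply, Pi.one_apply]; ring
    rw [this, wz_eq, ← Nat.cast_add, ← ZMod.natCast_mod, h]; rfl
  rw [h2] at h1
  have h3 : cc ψ (flip ψ) p = 0 := by
    simp only [sg_one, Int.cast_neg, Int.cast_one] at h1
    linear_combination (1 / 2 : ℂ) * h1
  simp [bb, h3]

theorem card_supp_subset (S : Finset ι) :
    (univ.filter (fun q : Lb ι => supp q ⊆ S)).card = 4 ^ S.card := by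
  have h : univ.filter (fun q : Lb ι => supp q ⊆ S)
      = (Fintype.piFinset (fun i => if i ∈ S then (univ : Finset Z2) else {0})) ×ˢ
        (Fintype.piFinset (fun i => if i ∈ S then (univ : Finset Z2) else {0})) := by
    ext q
    simp only [mem_filter, mem_univ, true_and, mem_product, Fintype.mem_piFinset]
    constructor
    · intro h
      have : ∀ i, i ∉ S → sy q i = 0 := fun i hi => by
        by_contra h'; exact hi (h (mem_supp.mpr h'))
      constructor <;> intro i <;> by_cases hi : i ∈ S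
      · simp [hi]
      · simpa [hi, sy] using congrArg Prod.fst (this i hi)
      · simp [hi]
      · simpa [hi, sy] using congrArg Prod.snd (this i hi)
    · rintro ⟨h1, h2⟩ i hi
      by_contra hS
      have e1 := h1 i
      have e2 := h2 i
      simp only [hS, if_false, mem_singleton] at e1 e2
      exact mem_supp.mp hi (Prod.ext e1 e2)
  have h2 : (Fintype.piFinset (fun i => if i ∈ S then (univ : Finset Z2) else {0})).card
      = 2 ^ S.card := by
    rw [Fintype.card_piFinset]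
    have : ∀ i, (if i ∈ S then (univ : Finset Z2) else {0}).card = if i ∈ S then 2 else 1 := by
      intro i; split_ifs <;> simp
    simp only [this]
    rw [Finset.prod_ite, Finset.prod_const_one, mul_one, Finset.prod_const]
    simp
  rw [h, card_product, h2, ← mul_pow]
  norm_num

theorem sum_sg_sp (p : Lb ι) (S : Finset ι) :
    ∑ q ∈ univ.filter (fun q : Lb ι => supp q ⊆ S), sg (sp p q)
      = if Disjoint S (supp p) then 4 ^ S.card else 0 := by
  split_ifs with h
  · have : ∀ q ∈ univ.filter (fun q : Lb ι => supp q ⊆ S), sg (sp p q) = 1 := by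
      intro q hq
      have hq' := (mem_filter.mp hq).2
      have : sp p q = 0 := by
        unfold sp dot
        rw [← Finset.sum_add_distrib]
        apply Finset.sum_eq_zero
        intro i _
        by_cases hi : i ∈ S
        · have h0 : sy p i = 0 := by
            by_contra h'; exact Finset.disjoint_left.mp h hi (mem_supp.mpr h')
          have e1 : p.1 i = 0 := congrArg Prod.fst h0
          have e2 : p.2 i = 0 := congrArg Prod.snd h0
          simp [e1, e2]
        · have h0 : sy q i = 0 := by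
            by_contra h'; exact hi (hq' (mem_supp.mpr h'))
          have e1 : q.1 i = 0 := congrArg Prod.fst h0
          have e2 : q.2 i = 0 := congrArg Prod.snd h0
          simp [e1, e2]
      rw [this, sg_zero]
    rw [Finset.sum_congr rfl this, Finset.sum_const, card_supp_subset]
    simp
  · obtain ⟨i, hiS, hip⟩ := Finset.not_disjoint_iff.mp h
    have hadd : ∀ a ∈ univ.filter (fun q : Lb ι => supp q ⊆ S),
        ∀ b ∈ univ.filter (fun q : Lb ι => supp q ⊆ S),
        a + b ∈ univ.filter (fun q : Lb ι => supp q ⊆ S) := by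
      intro a ha b hb
      exact mem_filter.mpr ⟨mem_univ _, (supp_add_subset a b).trans
        (union_subset (mem_filter.mp ha).2 (mem_filter.mp hb).2)⟩
    have hsingle : ∀ a b : Z2, ((Pi.single i a, Pi.single i b) : Lb ι)
        ∈ univ.filter (fun q : Lb ι => supp q ⊆ S) := by
      intro a b
      refine mem_filter.mpr ⟨mem_univ _, fun j hj => ?_⟩
      by_contra hS
      have hji : j ≠ i := fun e => hS (e ▸ hiS)
      exact mem_supp.mp hj (by simp [sy, hji])
    have hsp : ∀ a b : Z2, sp p ((Pi.single i a, Pi.single i b) : Lb ι)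
        = b * p.1 i + p.2 i * a := by
      intro a b
      simp [sp, dot, Pi.single_apply]
    obtain ⟨a, b, hab⟩ : ∃ a b : Z2, b * p.1 i + p.2 i * a = 1 := by
      have : ∀ x y : Z2, (x, y) ≠ 0 → ∃ a b : Z2, b * x + y * a = 1 := by decide
      exact this _ _ (mem_supp.mp hip)
    refine sum_sg_eq_zero _ hadd ?_ _ (sp_add_right p) _ (hsingle a b) (by rw [hsp, hab])
    intro x hx y hy
    have : x - y = x + y := by
      rw [sub_eq_iff_eq_add, add_assoc]
      have : y + y = 0 := Prod.ext (cfg_add_self _) (cfg_add_self _)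
      rw [this, add_zero]
    rw [this]
    exact hadd x hx y hy

/-- Total squared expectation of the labels with a given support. -/
noncomputable def AA (ψ : (ι → Z2) → ℂ) (S : Finset ι) : ℝ :=
  ∑ p ∈ univ.filter (fun p : Lb ι => supp p = S), aa ψ p

/-- Shadow weight of the labels vanishing on a set. -/
noncomputable def mm (ψ : (ι → Z2) → ℂ) (S : Finset ι) : ℝ :=
  ∑ p : Lb ι, if Disjoint S (supp p) then bb ψ p else 0

theorem AA_nonneg (ψ : (ι → Z2) → ℂ) (S : Finset ι) : 0 ≤ AA ψ S :=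
  Finset.sum_nonneg fun p _ => aa_nonneg ψ p

theorem mm_nonneg (ψ : (ι → Z2) → ℂ) (S : Finset ι) : 0 ≤ mm ψ S :=
  Finset.sum_nonneg fun p _ => by split_ifs; exacts [bb_nonneg ψ p, le_rfl]

theorem sum_AA (ψ : (ι → Z2) → ℂ) (𝒮 : Finset (Finset ι)) (f : Finset ι → ℝ) :
    ∑ S ∈ 𝒮, f S * AA ψ S
      = ∑ p ∈ univ.filter (fun p : Lb ι => supp p ∈ 𝒮), f (supp p) * aa ψ p := by
  rw [← Finset.sum_fiberwise_eq_sum_filter]
  refine Finset.sum_congr rfl fun S _ => ?_
  unfold AA
  rw [Finset.mul_sum]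
  exact Finset.sum_congr rfl fun p hp => by rw [(mem_filter.mp hp).2]

theorem shadow_set (ψ : (ι → Z2) → ℂ) (S : Finset ι) :
    4 ^ S.card * mm ψ S = 2 ^ Fintype.card ι * ∑ T ∈ S.powerset, (-1) ^ T.card * AA ψ T := by
  rw [sum_AA]
  have h1 : ∑ q ∈ univ.filter (fun q : Lb ι => supp q ⊆ S), ∑ p : Lb ι, (sg (sp p q) : ℝ) * bb ψ p
      = 4 ^ S.card * mm ψ S := by
    rw [Finset.sum_comm]
    unfold mm
    rw [Finset.mul_sum]
    refine Finset.sum_congr rfl fun p _ => ?_
    rw [← Finset.sum_mul]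
    have h2 : ∑ q ∈ univ.filter (fun q : Lb ι => supp q ⊆ S), (sg (sp p q) : ℝ)
        = if Disjoint S (supp p) then 4 ^ S.card else 0 := by exact_mod_cast sum_sg_sp p S
    rw [h2]
    split_ifs <;> simp
  rw [← h1, Finset.mul_sum]
  simp only [mem_powerset]
  refine Finset.sum_congr rfl fun q _ => ?_
  rw [shadow_transform, wz_eq, sg_natCast]
  push_cast
  rfl

theorem AA_empty (ψ : (ι → Z2) → ℂ) (hψ : ip ψ ψ = 1) : AA ψ ∅ = 1 := by
  unfold AA
  have : univ.filter (fun p : Lb ι => supp p = ∅) = {0} := by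
    ext p; simp [supp_eq_empty]
  rw [this, Finset.sum_singleton]
  simp [aa, expv, hψ]

theorem expv_of_AA {ψ : (ι → Z2) → ℂ} {p : Lb ι} (h : AA ψ (supp p) = 0) :
    expv ψ p.1 p.2 = 0 := by
  have := (Finset.sum_eq_zero_iff_of_nonneg (fun q _ => aa_nonneg ψ q)).mp h p (by simp)
  exact Complex.normSq_eq_zero.mp this

theorem sum_mm (ψ : (ι → Z2) → ℂ) (I U : Finset ι) (j : ℕ) :
    ∑ J ∈ U.powersetCard j, mm ψ (I ∪ J)
      = ∑ p : Lb ι, if Disjoint I (supp p) then ((U \ supp p).card.choose j : ℝ) * bb ψ p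
        else 0 := by
  unfold mm
  rw [Finset.sum_comm]
  refine Finset.sum_congr rfl fun p _ => ?_
  simp only [disjoint_union_left]
  split_ifs with h
  · simp only [h, true_and]
    rw [← Finset.sum_filter, Finset.sum_const, nsmul_eq_mul, ← Finset.card_powersetCard]
    congr 3
    ext J
    simp only [mem_filter, mem_powersetCard, subset_sdiff]
    tauto
  · simp [h]

/-! Gram kernels. -/

theorem ip_sum_left {κ : Type*} (F : Finset κ) (u : κ → (ι → Z2) → ℂ) (v : (ι → Z2) → ℂ) :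
    ip (∑ k ∈ F, u k) v = ∑ k ∈ F, ip (u k) v := by
  unfold ip
  rw [Finset.sum_comm]
  exact Finset.sum_congr rfl fun x _ => by rw [Finset.sum_apply, star_sum, Finset.sum_mul]

theorem ip_sum_right {κ : Type*} (F : Finset κ) (u : κ → (ι → Z2) → ℂ) (v : (ι → Z2) → ℂ) :
    ip v (∑ k ∈ F, u k) = ∑ k ∈ F, ip v (u k) := by
  unfold ip
  rw [Finset.sum_comm]
  exact Finset.sum_congr rfl fun x _ => by rw [Finset.sum_apply, Finset.mul_sum]

theorem ip_self_re (w : (ι → Z2) → ℂ) : 0 ≤ (ip w w).re := by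
  rw [ip_self, Complex.ofReal_re]; positivity

theorem gram_eq {κ : Type*} (F : Finset κ) (u : κ → (ι → Z2) → ℂ) (g : κ → ℝ) :
    (ip (∑ k ∈ F, (g k : ℂ) • u k) (∑ k ∈ F, (g k : ℂ) • u k)).re
      = ∑ k ∈ F, ∑ l ∈ F, g k * g l * (ip (u k) (u l)).re := by
  rw [ip_sum_left, Complex.re_sum]
  refine Finset.sum_congr rfl fun k _ => ?_
  rw [ip_sum_right, Complex.re_sum]
  refine Finset.sum_congr rfl fun l _ => ?_
  rw [ip_smul]
  simp

theorem re_sq_le (φ w : (ι → Z2) → ℂ) (hφ : ip φ φ = 1) : (ip φ w).re ^ 2 ≤ (ip w w).re := by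
  have h := ip_self_re (∑ k : Fin 2, ((![1, -(ip φ w).re] k : ℝ) : ℂ) • ![w, φ] k)
  rw [gram_eq] at h
  have h2 : (ip w φ).re = (ip φ w).re := by rw [← star_ip]; simp
  simp only [Fin.sum_univ_two, Matrix.cons_val_zero, Matrix.cons_val_one, hφ, h2,
    Complex.one_re] at h
  nlinarith

/-- The real Gram kernel of the projections of `φ` on the Pauli translates of `ψ`. -/
noncomputable def KK (ψ φ : (ι → Z2) → ℂ) (p q : Lb ι) : ℝ :=
  (ip (cc ψ φ p • pauli p.1 p.2 ψ) (cc ψ φ q • pauli q.1 q.2 ψ)).re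

/-- A positive kernel on a finite set. -/
def PosK {κ : Type*} (F : Finset κ) (K : κ → κ → ℝ) : Prop :=
  ∀ g : κ → ℝ, 0 ≤ ∑ k ∈ F, ∑ l ∈ F, g k * g l * K k l

theorem KK_pos (ψ φ : (ι → Z2) → ℂ) (F : Finset (Lb ι)) : PosK F (KK ψ φ) := by
  intro g
  unfold KK
  rw [← gram_eq]
  exact ip_self_re _

theorem twist (ψ : (ι → Z2) → ℂ) (c d : ℂ) (p q : Lb ι) :
    ip (((sg (dot p.2 p.1) : ℂ) * star c) • pauli p.1 p.2 ψ)
      (((sg (dot q.2 q.1) : ℂ) * star d) • pauli q.1 q.2 ψ)
      = (sg (sp p q) : ℂ) * star (ip (c • pauli p.1 p.2 ψ) (d • pauli q.1 q.2 ψ)) := by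
  have h := star_expv ψ (p.1 + q.1) (p.2 + q.2)
  unfold expv at h
  rw [ip_smul, ip_smul, ip_pauli]
  simp only [star_mul', star_star, star_intCast, h, sp, dot_add_left, dot_add_right, sg_add]
  push_cast
  have h1 := sgc_mul_self (dot q.2 p.1)
  have h2 := sgc_mul_self (dot p.2 q.1)
  set A := (sg (dot q.2 p.1) : ℂ)
  set B := (sg (dot p.2 q.1) : ℂ)
  set C := (sg (dot p.2 p.1) : ℂ)
  set D := (sg (dot q.2 q.1) : ℂ)
  set E := ip ψ (pauli (p.1 + q.1) (p.2 + q.2) ψ)
  linear_combination (-(c * star d * C * C * A * D * E * B * B)) * h1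
    - (c * star d * C * C * A * D * E) * h2

theorem KK_pos' (ψ φ : (ι → Z2) → ℂ) (F : Finset (Lb ι)) :
    PosK F (fun p q => (sg (sp p q) : ℝ) * KK ψ φ p q) := by
  intro g
  have h := ip_self_re (∑ p ∈ F, (g p : ℂ) •
    (((sg (dot p.2 p.1) : ℂ) * star (cc ψ φ p)) • pauli p.1 p.2 ψ))
  rw [gram_eq] at h
  simp only [twist] at h
  convert h using 4 with p _ q _
  unfold KK
  simp

theorem KK_cs (ψ φ : (ι → Z2) → ℂ) (hφ : ip φ φ = 1) (F : Finset (Lb ι)) (g : Lb ι → ℝ) :
    (∑ p ∈ F, g p * Complex.normSq (cc ψ φ p)) ^ 2 ≤ ∑ p ∈ F, ∑ q ∈ F, g p * g q * KK ψ φ p q := by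
  have h := re_sq_le φ (∑ p ∈ F, (g p : ℂ) • (cc ψ φ p • pauli p.1 p.2 ψ)) hφ
  rw [gram_eq, ip_sum_right, Complex.re_sum] at h
  refine le_of_eq_of_le ?_ h
  congr 1
  refine Finset.sum_congr rfl fun p _ => ?_
  rw [smul_smul, ← one_smul ℂ φ, ip_smul, ← star_ip, one_smul]
  have : star (1 : ℂ) * (g p * cc ψ φ p) * star (ip (pauli p.1 p.2 ψ) φ)
      = ((g p * Complex.normSq (cc ψ φ p) : ℝ) : ℂ) := by
    push_cast
    rw [← mul_star_eq]
    unfold cc
    simp only [star_one]
    ring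
  rw [this, Complex.ofReal_re]

theorem KK_self (ψ φ : (ι → Z2) → ℂ) (hψ : ip ψ ψ = 1) (p : Lb ι) :
    KK ψ φ p p = Complex.normSq (cc ψ φ p) := by
  unfold KK
  rw [ip_smul, ip_unitary, hψ, mul_one, mul_comm, mul_star_eq, Complex.ofReal_re]

theorem KK_zero (ψ φ : (ι → Z2) → ℂ) {p q : Lb ι} (h : expv ψ (p + q).1 (p + q).2 = 0) :
    KK ψ φ p q = 0 := by
  unfold KK
  unfold expv at h
  simp only [Prod.fst_add, Prod.snd_add] at h
  rw [ip_smul, ip_pauli, h]
  simp

theorem cc_self (ψ : (ι → Z2) → ℂ) (p : Lb ι) : cc ψ ψ p = star (expv ψ p.1 p.2) := by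
  unfold cc expv; rw [star_ip]

theorem KK_anti (ψ : (ι → Z2) → ℂ) {p q : Lb ι} (h : sp p q = 1) : KK ψ ψ p q = 0 := by
  have h1 := twist ψ (cc ψ ψ p) (cc ψ ψ q) p q
  have h2 : ∀ r : Lb ι, (sg (dot r.2 r.1) : ℂ) * star (cc ψ ψ r) = cc ψ ψ r := by
    intro r; rw [cc_self, star_star, star_expv]
  rw [h2, h2, h] at h1
  have h3 := congrArg Complex.re h1
  unfold KK
  simp only [sg_one, Int.cast_neg, Int.cast_one, neg_mul, one_mul, Complex.neg_re,
    Complex.star_def, Complex.conj_re] at h3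
  linarith

/-- Bessel's inequality for families of Pauli operators with pairwise vanishing real overlaps. -/
theorem bessel (ψ : (ι → Z2) → ℂ) (hψ : ip ψ ψ = 1) (F : Finset (Lb ι))
    (h : ∀ p ∈ F, ∀ q ∈ F, p ≠ q → expv ψ (p + q).1 (p + q).2 = 0 ∨ sp p q = 1) :
    ∑ p ∈ F, aa ψ p ≤ 1 := by
  have h1 := KK_cs ψ ψ hψ F (fun _ => 1)
  have h2 : ∀ p : Lb ι, Complex.normSq (cc ψ ψ p) = aa ψ p := by
    intro p; rw [cc_self]; exact Complex.normSq_conj _
  have h3 : ∀ p ∈ F, ∑ q ∈ F, (1 : ℝ) * 1 * KK ψ ψ p q = aa ψ p := by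
    intro p hp
    rw [Finset.sum_eq_single p, KK_self ψ ψ hψ, h2, one_mul, one_mul]
    · intro q hq hqp
      rcases h p hp q hq hqp.symm with h' | h'
      · rw [KK_zero ψ ψ h', mul_zero]
      · rw [KK_anti ψ h', mul_zero]
    · intro h'; exact absurd hp h'
  rw [Finset.sum_congr rfl h3] at h1
  simp only [h2, one_mul] at h1
  nlinarith

theorem PosK.mul {κ : Type*} {F : Finset κ} {K : κ → κ → ℝ} (h : PosK F K) {μ : Type*}
    (M : Finset μ) (d : μ → ℝ) (hd : ∀ m ∈ M, 0 ≤ d m) (f : μ → κ → ℝ) :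
    PosK F (fun k l => (∑ m ∈ M, d m * (f m k * f m l)) * K k l) := by
  intro g
  have : ∑ k ∈ F, ∑ l ∈ F, g k * g l * ((∑ m ∈ M, d m * (f m k * f m l)) * K k l)
      = ∑ m ∈ M, d m * ∑ k ∈ F, ∑ l ∈ F, (g k * f m k) * (g l * f m l) * K k l := by
    simp only [Finset.mul_sum, Finset.sum_mul]
    rw [Finset.sum_congr rfl (fun k _ => Finset.sum_comm), Finset.sum_comm]
    refine Finset.sum_congr rfl fun m _ => Finset.sum_congr rfl fun k _ =>
      Finset.sum_congr rfl fun l _ => by ring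
  rw [this]
  exact Finset.sum_nonneg fun m hm => mul_nonneg (hd m hm) (h _)

theorem PosK.add {κ : Type*} {F : Finset κ} {K L : κ → κ → ℝ} (h : PosK F K) (h' : PosK F L) :
    PosK F (fun k l => K k l + L k l) := by
  intro g
  simp only [mul_add, Finset.sum_add_distrib]
  exact add_nonneg (h g) (h' g)

/-- The dual certificate for the shadow weights. -/
theorem cert (ψ : (ι → Z2) → ℂ) (hψ : ip ψ ψ = 1) (F : Finset (Lb ι)) (w : Lb ι → ℝ)
    (θ : ℝ) (hθ : 0 ≤ θ) (Zu Zw : Lb ι → Lb ι → ℝ)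
    (hu : PosK F (fun p q => Zu p q * KK ψ (flip ψ) p q))
    (hw : PosK F (fun p q => Zw p q * ((sg (sp p q) : ℝ) * KK ψ (flip ψ) p q)))
    (hoff : ∀ p ∈ F, ∀ q ∈ F, p ≠ q → expv ψ (p + q).1 (p + q).2 ≠ 0 →
      w p * w q + Zu p q + Zw p q * (sg (sp p q) : ℝ) = 0)
    (hdiag : ∀ p ∈ F, w p * w p + Zu p p + Zw p p ≤ θ * w p) :
    ∑ p ∈ F, w p * bb ψ p ≤ θ := by
  have h1 := KK_cs ψ (flip ψ) (ip_flip ψ hψ) F w
  have h2 := hu (fun _ => 1)
  have h3 := hw (fun _ => 1)
  have h4 : ∀ p ∈ F, ∑ q ∈ F, (w p * w q * KK ψ (flip ψ) p q + 1 * 1 * (Zu p q * KK ψ (flip ψ) p q)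
      + 1 * 1 * (Zw p q * ((sg (sp p q) : ℝ) * KK ψ (flip ψ) p q))) ≤ θ * (w p * bb ψ p) := by
    intro p hp
    rw [Finset.sum_eq_single p, KK_self ψ _ hψ, sp_self]
    · have := mul_le_mul_of_nonneg_right (hdiag p hp) (bb_nonneg ψ p)
      unfold bb at this ⊢
      simp only [sg_zero, Int.cast_one]
      linarith
    · intro q hq hqp
      by_cases he : expv ψ (p + q).1 (p + q).2 = 0
      · rw [KK_zero ψ _ he]; ring
      · linear_combination KK ψ (flip ψ) p q * hoff p hp q hq hqp.symm he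
    · intro h'; exact absurd hp h'
  have h5 := Finset.sum_le_sum h4
  simp only [Finset.sum_add_distrib] at h5
  rw [← Finset.mul_sum] at h5
  change (∑ p ∈ F, w p * bb ψ p) ^ 2 ≤ _ at h1
  by_contra hcon
  push Not at hcon
  nlinarith

end general

theorem AA_of_PM {n : ℕ} {ψ : (Fin n → Z2) → ℂ} {S T : Finset (Fin n)} (h : PM ψ S) (hT : T ⊆ S)
    (hne : T ≠ ∅) : AA ψ T = 0 := by
  apply Finset.sum_eq_zero
  intro p hp
  have hp' := (mem_filter.mp hp).2
  unfold aa
  rw [h p.1 p.2, map_zero]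
  · intro i hi
    have h0 : sy p i = 0 := by
      by_contra h'; exact hi (hT (hp' ▸ mem_supp.mpr h'))
    exact ⟨congrArg Prod.fst h0, congrArg Prod.snd h0⟩
  · by_contra hcon
    push Not at hcon
    exact hne (hp' ▸ supp_eq_empty.mpr (Prod.ext hcon.1 hcon.2))

end Pool.Agent.MP_450e1b_mp
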