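import Mathlib
import Pool.Agent.MP_450e1b_mp.H20.Shadow

/-
Ten qubits: at least six four-element sets are not maximally mixed.
-/

namespace Pool.Agent.MP_450e1b_mp

open Finset

section general
variable {ι : Type*} [Fintype ι] [DecidableEq ι]

theorem bessel3 (ψ : (ι → Z2) → ℂ) (hψ : ip ψ ψ = 1) (G : Finset (Lb ι)) (cls : Lb ι → Z2 × Z2)
    (h0 : ∀ p ∈ G, cls p ≠ 0)
    (h : ∀ p ∈ G, ∀ q ∈ G, p ≠ q → cls p = cls q →
      expv ψ (p + q).1 (p + q).2 = 0 ∨ sp p q = 1) :
    ∑ p ∈ G, aa ψ p ≤ 3 := by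
  rw [← Finset.sum_fiberwise_of_maps_to (t := univ.erase 0) (g := cls)
    (fun p hp => mem_erase.mpr ⟨h0 p hp, mem_univ _⟩)]
  refine (Finset.sum_le_card_nsmul _ _ 1 fun σ _ => bessel ψ hψ _ ?_).trans ?_
  · intro p hp q hq hpq
    obtain ⟨hp1, hp2⟩ := mem_filter.mp hp
    obtain ⟨hq1, hq2⟩ := mem_filter.mp hq
    exact h p hp1 q hq1 hpq (hp2.trans hq2.symm)
  · have : (univ.erase (0 : Z2 × Z2)).card = 3 := by decide
    rw [this]; norm_num

/-- All nonempty sets of size at most `k` carry no weight. -/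
def Unif (ψ : (ι → Z2) → ℂ) (k : ℕ) : Prop := ∀ T : Finset ι, T ≠ ∅ → T.card ≤ k → AA ψ T = 0

theorem Unif.expv {ψ : (ι → Z2) → ℂ} {k : ℕ} (h : Unif ψ k) {p q : Lb ι} (hpq : p ≠ q)
    (hc : (supp (p + q)).card ≤ k) : expv ψ (p + q).1 (p + q).2 = 0 :=
  expv_of_AA (h _ (fun h0 => hpq (lb_add_eq_zero (supp_eq_empty.mp h0))) hc)

theorem shadow_k (ψ : (ι → Z2) → ℂ) (hψ : ip ψ ψ = 1) {k : ℕ} (h : Unif ψ k) (S : Finset ι) :
    4 ^ S.card * mm ψ S = 2 ^ Fintype.card ι *
      (1 + ∑ T ∈ S.powerset.filter (fun T => k < T.card), (-1) ^ T.card * AA ψ T) := by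
  rw [shadow_set, ← Finset.sum_filter_add_sum_filter_not _ (fun T => k < T.card), add_comm]
  congr 2
  rw [Finset.sum_eq_single ∅, AA_empty ψ hψ]
  · simp
  · intro T hT hne
    rw [h T hne (not_lt.mp (mem_filter.mp hT).2), mul_zero]
  · simp

theorem shadow_low (ψ : (ι → Z2) → ℂ) (hψ : ip ψ ψ = 1) {k : ℕ} (h : Unif ψ k) (S : Finset ι)
    (hS : S.card ≤ k) : 4 ^ S.card * mm ψ S = 2 ^ Fintype.card ι := by
  rw [shadow_k ψ hψ h, Finset.sum_eq_zero, add_zero, mul_one]
  intro T hT
  obtain ⟨h1, h2⟩ := mem_filter.mp hT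
  have := card_le_card (mem_powerset.mp h1)
  omega

theorem shadow_next (ψ : (ι → Z2) → ℂ) (hψ : ip ψ ψ = 1) {k : ℕ} (h : Unif ψ k) (S : Finset ι)
    (hS : S.card = k + 1) :
    4 ^ (k + 1) * mm ψ S = 2 ^ Fintype.card ι * (1 + (-1) ^ (k + 1) * AA ψ S) := by
  have : S.powerset.filter (fun T => k < T.card) = {S} := by
    ext T
    simp only [mem_filter, mem_powerset, mem_singleton]
    constructor
    · rintro ⟨h1, h2⟩
      exact eq_of_subset_of_card_le h1 (by omega)
    · rintro rfl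
      exact ⟨subset_rfl, by omega⟩
  rw [← hS, shadow_k ψ hψ h, this, Finset.sum_singleton]

theorem same_symbol {p q : Lb ι} {i : ι} (h : sy p i = sy q i) :
    supp (p + q) ⊆ (supp p ∪ supp q).erase i := by
  intro j hj
  refine mem_erase.mpr ⟨?_, supp_add_subset p q hj⟩
  rintro rfl
  exact mem_supp.mp hj (by rw [sy_add, h, sym_add_eq_zero])

theorem AA_le_three (ψ : (ι → Z2) → ℂ) (hψ : ip ψ ψ = 1) {k : ℕ} (h : Unif ψ k) (S : Finset ι)
    (hS : S.card = k + 1) : AA ψ S ≤ 3 := by
  obtain ⟨i, hi⟩ : S.Nonempty := card_pos.mp (by omega)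
  refine bessel3 ψ hψ _ (fun p => sy p i) ?_ ?_
  · intro p hp
    exact mem_supp.mp ((mem_filter.mp hp).2 ▸ hi)
  · intro p hp q hq hpq hs
    left
    apply h.expv hpq
    have h1 := card_le_card (same_symbol hs)
    rw [(mem_filter.mp hp).2, (mem_filter.mp hq).2, union_self, card_erase_of_mem hi] at h1
    omega

theorem pair_le_three (ψ : (ι → Z2) → ℂ) (hψ : ip ψ ψ = 1) {k : ℕ} (h : Unif ψ k)
    (R R' : Finset ι) (hR : R.card = k + 1) (hR' : R'.card = k + 1) (hne : R ≠ R') (i : ι)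
    (hi : i ∈ R) (hi' : i ∈ R') (π : Z2 × Z2 → Z2 × Z2) (hπ : Function.Injective π)
    (hπ0 : π 0 = 0)
    (cross : ∀ p q : Lb ι, supp p = R → supp q = R' → sy p i = π (sy q i) →
      expv ψ (p + q).1 (p + q).2 = 0 ∨ sp p q = 1) : AA ψ R + AA ψ R' ≤ 3 := by
  have h1 := sum_AA ψ {R, R'} (fun _ => 1)
  rw [Finset.sum_pair hne] at h1
  simp only [one_mul] at h1
  rw [h1]
  have same : ∀ S : Finset ι, S.card = k + 1 → i ∈ S → ∀ p q : Lb ι, supp p = S → supp q = S →
      p ≠ q → sy p i = sy q i → expv ψ (p + q).1 (p + q).2 = 0 := by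
    intro S hS hiS p q hp hq hpq hs
    apply h.expv hpq
    have h1 := card_le_card (same_symbol hs)
    rw [hp, hq, union_self, card_erase_of_mem hiS] at h1
    omega
  refine bessel3 ψ hψ _ (fun p => if supp p = R then sy p i else π (sy p i)) ?_ ?_
  · intro p hp
    have hp' := (mem_filter.mp hp).2
    simp only [mem_insert, mem_singleton] at hp'
    split_ifs with h2
    · exact mem_supp.mp (h2 ▸ hi)
    · intro h3
      exact mem_supp.mp ((hp'.resolve_left h2) ▸ hi') (hπ (h3.trans hπ0.symm))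
  · intro p hp q hq hpq hs
    have hp' := (mem_filter.mp hp).2
    have hq' := (mem_filter.mp hq).2
    simp only [mem_insert, mem_singleton] at hp' hq'
    by_cases h2 : supp p = R <;> by_cases h3 : supp q = R <;> simp only [h2, h3, if_true,
      if_false] at hs
    · exact Or.inl (same R hR hi p q h2 h3 hpq hs)
    · exact cross p q h2 (hq'.resolve_left h3) hs
    · have := cross q p h3 (hp'.resolve_left h2) hs.symm
      rwa [add_comm q p, sp_comm q p] at this
    · exact Or.inl (same R' hR' hi' p q (hp'.resolve_left h2) (hq'.resolve_left h3) hpq (hπ hs))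

end general

theorem card_supersets {n k : ℕ} (T : Finset (Fin n)) (hT : T.card = k)
    (B : Finset (Finset (Fin n))) (h : ∀ j, j ∉ T → insert j T ∈ B) : n - k ≤ B.card := by
  have : Tᶜ.card = n - k := by rw [card_compl, hT]; simp
  rw [← this]
  refine card_le_card_of_injOn (fun j => insert j T) (fun j hj => h j (by simpa using hj)) ?_
  intro a ha b _ hab
  have : a ∈ insert b T := by
    have h1 : insert a T = insert b T := hab
    rw [← h1]; exact mem_insert_self _ _
  exact (mem_insert.mp this).resolve_right (by simpa using ha)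

theorem ten_deg (ψ : (Fin 10 → Z2) → ℂ) (hψ : ip ψ ψ = 1) (h : Unif ψ 3) (i : Fin 10) :
    4 ≤ ∑ J ∈ (univ.erase i).powersetCard 3, AA ψ ({i} ∪ J) := by
  have hcard : ∀ j, ∀ J ∈ (univ.erase i).powersetCard j, ({i} ∪ J : Finset (Fin 10)).card = j + 1 := by
    intro j J hJ
    obtain ⟨h1, h2⟩ := mem_powersetCard.mp hJ
    rw [← insert_eq, card_insert_of_notMem (fun hi => by simpa using h1 hi), h2]
  have hlow : ∀ j ≤ 2, ∑ J ∈ (univ.erase i).powersetCard j, mm ψ ({i} ∪ J)
      = (Nat.choose 9 j : ℝ) * (1024 / 4 ^ (j + 1)) := by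
    intro j hj
    have : ∀ J ∈ (univ.erase i).powersetCard j, mm ψ ({i} ∪ J) = 1024 / 4 ^ (j + 1) := by
      intro J hJ
      have := shadow_low ψ hψ h _ (by rw [hcard j J hJ]; omega)
      rw [hcard j J hJ, Fintype.card_fin] at this
      field_simp
      linarith
    rw [Finset.sum_congr rfl this, Finset.sum_const, card_powersetCard, nsmul_eq_mul]
    simp
  have htop : ∑ J ∈ (univ.erase i).powersetCard 3, mm ψ ({i} ∪ J)
      = 336 + 4 * ∑ J ∈ (univ.erase i).powersetCard 3, AA ψ ({i} ∪ J) := by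
    have : ∀ J ∈ (univ.erase i).powersetCard 3, mm ψ ({i} ∪ J) = 4 + 4 * AA ψ ({i} ∪ J) := by
      intro J hJ
      have := shadow_next ψ hψ h _ (hcard 3 J hJ)
      rw [Fintype.card_fin] at this
      norm_num at this ⊢
      linarith
    rw [Finset.sum_congr rfl this, Finset.sum_add_distrib, Finset.sum_const, card_powersetCard,
      ← Finset.mul_sum]
    simp [Nat.choose]
    norm_num
  have h0 := hlow 0 (by norm_num)
  have h1 := hlow 1 (by norm_num)
  have h2 := hlow 2 (by norm_num)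
  rw [sum_mm] at h0 h1 h2 htop
  have key : 0 ≤ ∑ p : Lb (Fin 10),
      (-15 * (if Disjoint {i} (supp p) then (((univ.erase i) \ supp p).card.choose 0 : ℝ) * bb ψ p
        else 0)
      + 15 * (if Disjoint {i} (supp p) then (((univ.erase i) \ supp p).card.choose 1 : ℝ) * bb ψ p
        else 0)
      - 12 * (if Disjoint {i} (supp p) then (((univ.erase i) \ supp p).card.choose 2 : ℝ) * bb ψ p
        else 0)
      + 6 * (if Disjoint {i} (supp p) then (((univ.erase i) \ supp p).card.choose 3 : ℝ) * bb ψ p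
        else 0)) := by
    apply Finset.sum_nonneg
    intro p _
    split_ifs with hd
    · have hsub : supp p ⊆ univ.erase i := fun j hj =>
        mem_erase.mpr ⟨fun e => by simp [← e, hj] at hd, mem_univ _⟩
      have hc : ((univ.erase i) \ supp p).card + (supp p).card = 9 := by
        rw [card_sdiff_add_card_eq_card hsub]; simp
      have hb := bb_nonneg ψ p
      by_cases hpar : ((supp p).card + Fintype.card (Fin 10)) % 2 = 1
      · rw [bb_parity ψ p hpar]; simp
      · rw [Fintype.card_fin] at hpar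
        generalize ((univ.erase i) \ supp p).card = W at hc
        have : W = 1 ∨ W = 3 ∨ W = 5 ∨ W = 7 ∨ W = 9 := by omega
        rcases this with rfl | rfl | rfl | rfl | rfl <;> simp [Nat.choose] <;> linarith
    · simp
  simp only [Finset.sum_add_distrib, Finset.sum_sub_distrib, ← Finset.mul_sum] at key
  rw [h0, h1, h2, htop] at key
  generalize ∑ J ∈ (univ.erase i).powersetCard 3, AA ψ ({i} ∪ J) = X at key ⊢
  simp [Nat.choose] at key
  norm_num at key
  linarith

theorem ten_bad (ψ : (Fin 10 → Z2) → ℂ) (hψ : ip ψ ψ = 1) (B : Finset (Finset (Fin 10)))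
    (hB : ∀ S : Finset (Fin 10), S.card = 4 → S ∉ B → PM ψ S) : 6 ≤ B.card := by
  by_contra hcon
  have h3 : Unif ψ 3 := by
    intro T hne hT
    by_contra hA
    obtain ⟨T3, hT3, hc⟩ := exists_superset_card_eq hT (by simp : 3 ≤ Fintype.card (Fin 10))
    have := card_supersets T3 hc B (fun j hj => by
      by_contra hj'
      exact hA (AA_of_PM (hB _ (by rw [card_insert_of_notMem hj, hc]) hj')
        (hT3.trans (subset_insert _ _)) hne))
    omega
  set H := ((univ : Finset (Fin 10)).powersetCard 4).filter (fun S => AA ψ S ≠ 0) with hH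
  have memH : ∀ S, S ∈ H ↔ S.card = 4 ∧ AA ψ S ≠ 0 := by
    intro S; simp [hH, mem_powersetCard]
  have hHB : H ⊆ B := by
    intro S hS
    obtain ⟨h1, h2⟩ := (memH S).mp hS
    by_contra hS'
    exact h2 (AA_of_PM (hB S h1 hS') subset_rfl (by rintro rfl; simp at h1))
  have hH5 := card_le_card hHB
  have hsum : ∀ i, 4 ≤ ∑ S ∈ H.filter (fun S => i ∈ S), AA ψ S := by
    intro i
    refine (ten_deg ψ hψ h3 i).trans ?_
    rw [← Finset.sum_image (s := (univ.erase i).powersetCard 3) (g := fun J => {i} ∪ J)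
      (f := AA ψ), ← Finset.sum_filter_ne_zero]
    · apply Finset.sum_le_sum_of_subset_of_nonneg _ (fun S _ _ => AA_nonneg ψ S)
      intro S hS
      obtain ⟨h1, h2⟩ := mem_filter.mp hS
      obtain ⟨J, hJ, rfl⟩ := mem_image.mp h1
      obtain ⟨h4, h5⟩ := mem_powersetCard.mp hJ
      refine mem_filter.mpr ⟨(memH _).mpr ⟨?_, h2⟩, by simp⟩
      rw [← insert_eq, card_insert_of_notMem (fun hi => by simpa using h4 hi), h5]
    · intro J hJ J' hJ' hJJ
      have h1 : i ∉ J := fun hi => by simpa using (mem_powersetCard.mp hJ).1 hi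
      have h2 : i ∉ J' := fun hi => by simpa using (mem_powersetCard.mp hJ').1 hi
      have h4 : insert i J = insert i J' := hJJ
      rw [← erase_insert h1, h4, erase_insert h2]
  have hdeg2 : ∀ i, 2 ≤ (H.filter (fun S => i ∈ S)).card := by
    intro i
    by_contra hlt
    have h1 := Finset.sum_le_card_nsmul (H.filter (fun S => i ∈ S)) (AA ψ) 3 (fun S hS =>
      AA_le_three ψ hψ h3 S ((memH S).mp (mem_filter.mp hS).1).1)
    have h2 : ((H.filter (fun S => i ∈ S)).card : ℝ) ≤ 1 := by exact_mod_cast (by omega)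
    have := hsum i
    rw [nsmul_eq_mul] at h1
    linarith
  have htot : ∑ i, (H.filter (fun S => i ∈ S)).card = 4 * H.card := by
    simp only [card_filter]
    rw [Finset.sum_comm, mul_comm, ← smul_eq_mul, ← Finset.sum_const]
    refine Finset.sum_congr rfl fun S hS => ?_
    rw [← card_filter, ← ((memH S).mp hS).1]
    simp
  have hdeg : ∀ i, (H.filter (fun S => i ∈ S)).card = 2 := by
    intro i
    by_contra hne
    have := Finset.sum_lt_sum (s := univ) (f := fun _ : Fin 10 => 2)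
      (g := fun i => (H.filter (fun S => i ∈ S)).card) (fun j _ => hdeg2 j)
      ⟨i, mem_univ _, lt_of_le_of_ne (hdeg2 i) (Ne.symm hne)⟩
    rw [htot] at this
    simp at this
    omega
  have two : ∀ j, ∀ X ∈ H, ∀ Y ∈ H, ∀ Z ∈ H, j ∈ X → j ∈ Y → j ∈ Z → X ≠ Y → Z = X ∨ Z = Y := by
    intro j X hX Y hY Z hZ h1 h2 h4 hXY
    by_contra hc
    push Not at hc
    have : 2 < (H.filter (fun S => j ∈ S)).card := two_lt_card_iff.mpr
      ⟨X, Y, Z, mem_filter.mpr ⟨hX, h1⟩, mem_filter.mpr ⟨hY, h2⟩, mem_filter.mpr ⟨hZ, h4⟩, hXY,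
        hc.1.symm, hc.2.symm⟩
    rw [hdeg j] at this
    omega
  obtain ⟨R, R', hne, hRR⟩ := card_eq_two.mp (hdeg 0)
  have hs := hsum 0
  rw [hRR, Finset.sum_pair hne] at hs
  obtain ⟨hRH, hi⟩ := mem_filter.mp (hRR ▸ mem_insert_self R {R'} : R ∈ H.filter (fun S => 0 ∈ S))
  obtain ⟨hRH', hi'⟩ := mem_filter.mp (hRR ▸ (by simp : R' ∈ ({R, R'} : Finset _)) :
    R' ∈ H.filter (fun S => 0 ∈ S))
  have hR := ((memH R).mp hRH).1
  have hR' := ((memH R').mp hRH').1
  have hcu := card_union_add_card_inter R R'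
  have hiI : (0 : Fin 10) ∈ R ∩ R' := mem_inter.mpr ⟨hi, hi'⟩
  suffices AA ψ R + AA ψ R' ≤ 3 by linarith
  by_cases hc : (R ∩ R').card ≤ 1
  · refine pair_le_three ψ hψ h3 R R' hR hR' hne 0 hi hi' (fun σ => (σ.2, σ.1 + σ.2))
      (by decide) (by decide) ?_
    intro p q hp hq hsy
    right
    have hD : supp (p + q) = R ∪ R' := by
      apply Subset.antisymm (by rw [← hp, ← hq]; exact supp_add_subset p q)
      intro x hx
      by_cases h1 : x ∈ R <;> by_cases h2 : x ∈ R'
      · have : x = 0 := card_le_one.mp hc x (mem_inter.mpr ⟨h1, h2⟩) 0 hiI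
        subst this
        rw [mem_supp, sy_add, hsy]
        have h4 : sy q 0 ≠ 0 := mem_supp.mp (hq ▸ h2)
        revert h4
        generalize sy q 0 = σ
        revert σ
        decide
      · exact mem_supp_add_left (hp ▸ h1) (hq ▸ h2)
      · exact mem_supp_add_right (hp ▸ h1) (hq ▸ h2)
      · simp [h1, h2] at hx
    have := card_pos.mpr ⟨0, hiI⟩
    apply sp_eq_one
    rw [hD, hp, hq]
    omega
  · refine pair_le_three ψ hψ h3 R R' hR hR' hne 0 hi hi' id Function.injective_id rfl ?_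
    intro p q hp hq hsy
    have hpq : p ≠ q := by
      rintro rfl
      exact hne (hp.symm.trans hq)
    have hsub := same_symbol hsy
    rw [hp, hq] at hsub
    have hD1 := card_le_card hsub
    rw [card_erase_of_mem (mem_union_left _ hi)] at hD1
    by_cases hodd : (supp (p + q)).card % 2 = 1
    · right
      apply sp_eq_one
      rw [hp, hq]
      omega
    left
    by_cases hle : (supp (p + q)).card ≤ 3
    · exact h3.expv hpq hle
    apply expv_of_AA
    by_contra hA
    set D := supp (p + q) with hD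
    have hDH : D ∈ H := (memH D).mpr ⟨by omega, hA⟩
    have hiD : (0 : Fin 10) ∉ D := fun h0 => by simpa using hsub h0
    have hRD : R ≠ D := fun e => hiD (e ▸ hi)
    have hRD' : R' ≠ D := fun e => hiD (e ▸ hi')
    have hD2 : D ⊆ (R ∪ R') \ (R ∩ R') := by
      intro j hj
      refine mem_sdiff.mpr ⟨mem_of_mem_erase (hsub hj), fun hj' => ?_⟩
      rcases two j R hRH R' hRH' D hDH (mem_inter.mp hj').1 (mem_inter.mp hj').2 hj hne with e | e
      · exact hRD e.symm
      · exact hRD' e.symm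
    have hD3 := card_le_card hD2
    rw [card_sdiff_of_subset (inter_subset_union)] at hD3
    have hC : (R ∪ R')ᶜ.card = 4 := by
      rw [card_compl, Fintype.card_fin]; omega
    obtain ⟨x, hx⟩ : (R ∪ R')ᶜ.Nonempty := card_pos.mp (by omega)
    have hx' : x ∉ R ∪ R' := mem_compl.mp hx
    have hxD : x ∉ D := fun h => hx' (mem_of_mem_erase (hsub h))
    have huniq : ∀ Z ∈ H.filter (fun S => x ∈ S), Z = (R ∪ R')ᶜ := by
      intro Z hZ
      obtain ⟨hZH, hxZ⟩ := mem_filter.mp hZ
      have n1 : Z ≠ R := fun e => hx' (mem_union_left _ (e ▸ hxZ))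
      have n2 : Z ≠ R' := fun e => hx' (mem_union_right _ (e ▸ hxZ))
      have n3 : Z ≠ D := fun e => hxD (e ▸ hxZ)
      apply eq_of_subset_of_card_le _ (by rw [hC, ((memH Z).mp hZH).1])
      intro y hy
      rw [mem_compl]
      intro hy'
      by_cases h1 : y ∈ R <;> by_cases h2 : y ∈ R'
      · exact (two y R hRH R' hRH' Z hZH h1 h2 hy hne).elim n1 n2
      · exact (two y R hRH D hDH Z hZH h1 (mem_supp_add_left (hp ▸ h1) (hq ▸ h2)) hy hRD).elim
          n1 n3
      · exact (two y R' hRH' D hDH Z hZH h2 (mem_supp_add_right (hp ▸ h1) (hq ▸ h2)) hy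
          hRD').elim n2 n3
      · simp [h1, h2] at hy'
    have := card_le_one.mpr (fun a ha b hb => (huniq a ha).trans (huniq b hb).symm)
    rw [hdeg x] at this
    omega

theorem Qex_le_of_bad (n k b : ℕ)
    (h : ∀ ψ : (Fin n → Z2) → ℂ, ip ψ ψ = 1 → ∀ B : Finset (Finset (Fin n)),
      (∀ S : Finset (Fin n), S.card = k → S ∉ B → PM ψ S) → b ≤ B.card) :
    Qex n k + b ≤ n.choose k := by
  classical
  obtain ⟨ψ, hψ, hQ⟩ := exists_Qex n k
  rw [hQ, mixedCount_eq ψ hψ]
  have h1 := h ψ (by rw [ip_self, hψ]; simp) ((univ.powersetCard k).filter (fun S => ¬ PM ψ S))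
    (fun S hS hS' => by
      by_contra hP
      exact hS' (mem_filter.mpr ⟨mem_powersetCard.mpr ⟨subset_univ _, hS⟩, hP⟩))
  have h2 := card_filter_add_card_filter_not (s := (univ : Finset (Fin n)).powersetCard k) (PM ψ)
  rw [card_powersetCard, card_univ, Fintype.card_fin] at h2
  omega

/-- Adjacency masks of a graph on ten vertices. -/
def adj10 : Fin 10 → ℕ := ![54, 765, 211, 674, 327, 779, 534, 270, 688, 362]

theorem Qex_10_4 : Qex 10 4 = 204 := by
  have h := le_Qex_of_graph adj10 (by decide +kernel) 4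
  have e : (((List.finRange 10).sublistsLen 4).filter
      (fun l => chk adj10 (cmask l) l 0 false)).length = 204 := by decide +kernel
  have h2 := Qex_le_of_bad 10 4 6 ten_bad
  have e2 : Nat.choose 10 4 = 210 := by decide
  omega

end Pool.Agent.MP_450e1b_mp
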