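import Mathlib
import Pool.Agent.MP_450e1b_mp.H20.Ten

/-
Thirteen qubits: two dual certificates bounding the shadow weight on labels of weight one and three.
-/

namespace Pool.Agent.MP_450e1b_mp

open Finset

section general
variable {ι : Type*} [Fintype ι] [DecidableEq ι]

theorem PosK.congr {κ : Type*} {F : Finset κ} {K L : κ → κ → ℝ} (h : PosK F K)
    (e : ∀ k ∈ F, ∀ l ∈ F, L k l = K k l) : PosK F L := by
  intro g
  rw [Finset.sum_congr rfl fun k hk => Finset.sum_congr rfl fun l hl => by rw [e k hk l hl]]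
  exact h g

theorem PosK.cent {F : Finset (Lb ι)} {K : Lb ι → Lb ι → ℝ} (h : PosK F K) (U : Finset ι)
    (m : ℝ) (hU : (U.card : ℝ) = m) (hm : m ≠ 0) :
    PosK F (fun p q => (((supp p ∩ supp q ∩ U).card : ℝ)
      - (supp p ∩ U).card * (supp q ∩ U).card / m) * K p q) := by
  refine (h.mul U (fun _ => 1) (fun _ _ => zero_le_one)
    (fun i p => (if i ∈ supp p then 1 else 0) - (supp p ∩ U).card / m)).congr ?_
  intro p _ q _
  congr 1
  have h1 : ∀ T : Finset ι, ∑ i ∈ U, (if i ∈ T then (1 : ℝ) else 0) = (T ∩ U).card := by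
    intro T
    rw [Finset.sum_ite_mem, inter_comm]
    simp
  have h2 : ∀ i, (1 : ℝ) * (((if i ∈ supp p then 1 else 0) - (supp p ∩ U).card / m)
      * ((if i ∈ supp q then 1 else 0) - (supp q ∩ U).card / m))
      = (if i ∈ supp p ∩ supp q then 1 else 0)
        - (supp q ∩ U).card / m * (if i ∈ supp p then 1 else 0)
        - (supp p ∩ U).card / m * (if i ∈ supp q then 1 else 0)
        + (supp p ∩ U).card / m * ((supp q ∩ U).card / m) := by
    intro i
    by_cases a : i ∈ supp p <;> by_cases b : i ∈ supp q <;> simp [a, b] <;> ring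
  simp only [h2, Finset.sum_add_distrib, Finset.sum_sub_distrib, ← Finset.mul_sum, h1,
    Finset.sum_const, nsmul_eq_mul, hU]
  field_simp
  ring

theorem union_subset_supp_add {p q : Lb ι} (h : (supp p ∩ supp q).card = 0) :
    supp p ∪ supp q ⊆ supp (p + q) := by
  intro i hi
  have h0 : i ∉ supp p ∩ supp q := by rw [card_eq_zero.mp h]; simp
  rcases mem_union.mp hi with h1 | h1
  · exact mem_supp_add_left h1 fun h2 => h0 (mem_inter.mpr ⟨h1, h2⟩)
  · exact mem_supp_add_right (fun h2 => h0 (mem_inter.mpr ⟨h2, h1⟩)) h1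

/-- Labels of weight one or three. -/
def F13 (ι : Type*) [Fintype ι] [DecidableEq ι] : Finset (Lb ι) :=
  univ.filter (fun p => (supp p).card = 1 ∨ (supp p).card = 3)

/-- The weights of the labels. -/
def w13 (p : Lb ι) : ℝ := if (supp p).card = 1 then 6 else 1

theorem big_overlap {p q : Lb ι} (hp : p ∈ F13 ι) (hq : q ∈ F13 ι)
    (h : 5 ≤ (supp (p + q)).card) : (supp p).card = 3 ∧ (supp q).card = 3 ∧
      (((supp p ∩ supp q).card = 0 ∧ sp p q = 0) ∨ ((supp p ∩ supp q).card = 1 ∧ sp p q = 1)) := by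
  have h1 := (mem_filter.mp hp).2
  have h2 := (mem_filter.mp hq).2
  have h3 := card_le_card (supp_add_subset p q)
  have h4 := card_union_add_card_inter (supp p) (supp q)
  refine ⟨by omega, by omega, ?_⟩
  by_cases h0 : (supp p ∩ supp q).card = 0
  · have := card_le_card (union_subset_supp_add h0)
    exact Or.inl ⟨h0, sp_eq_zero (by omega)⟩
  · exact Or.inr ⟨by omega, sp_eq_one (by omega)⟩

theorem cert_unif (hn : Fintype.card ι = 13) (ψ : (ι → Z2) → ℂ) (hψ : ip ψ ψ = 1) (h : Unif ψ 4) :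
    ∑ p ∈ F13 ι, w13 p * bb ψ p ≤ 6 := by
  refine cert ψ hψ _ _ 6 (by norm_num) (fun _ _ => 0)
    (fun p q => if (supp p).card = 3 ∧ (supp q).card = 3
      then 2 * (supp p ∩ supp q).card - 1 else 0) ?_ ?_ ?_ ?_
  · intro g; simp
  · have h0 := KK_pos' ψ (flip ψ) (F13 ι)
    have h1 := (h0.cent univ 13 (by simp [hn]) (by norm_num)).mul (univ : Finset Unit) (fun _ => 2)
      (fun _ _ => by norm_num) (fun _ p => if (supp p).card = 3 then 1 else 0)
    have h2 := h0.mul (univ : Finset Unit) (fun _ => 5 / 13)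
      (fun _ _ => by norm_num) (fun _ p => if (supp p).card = 3 then 1 else 0)
    refine (h1.add h2).congr ?_
    intro p _ q _
    by_cases a : (supp p).card = 3 <;> by_cases b : (supp q).card = 3 <;> simp [a, b]
    ring
  · intro p hp q hq hpq he
    have h5 : 5 ≤ (supp (p + q)).card := by
      by_contra hc
      exact he (h.expv hpq (by omega))
    obtain ⟨h1, h2, ⟨h3, h4⟩ | ⟨h3, h4⟩⟩ := big_overlap hp hq h5 <;>
      simp [w13, h1, h2, h3, h4]
    norm_num
  · intro p hp
    rcases (mem_filter.mp hp).2 with h1 | h1 <;> simp [w13, h1]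
    norm_num

/-- Pivots of the first certificate. -/
def dU : List (List ℚ) := [[29/100, 439/2900, 21603/702400, 14101/909600],
  [0, 101/100, 53847/40400, 266363/10769400], [0, 0, 0, 0], [0, 0, 0, 0]]

/-- Features of the first certificate. -/
def LU : List (List (List ℚ)) := [[[1, 19/58, -13/29, -20/29], [0, 1, -2261/1756, -423/3512],
    [0, 0, 1, 323/2274], [0, 0, 0, 1]],
  [[0, 0, 0, 0], [0, 1, -17/202, -269/202], [0, 0, 1, 65117/53847], [0, 0, 0, 1]],
  [[0, 0, 0, 0], [0, 0, 0, 0], [0, 0, 0, 0], [0, 0, 0, 0]],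
  [[0, 0, 0, 0], [0, 0, 0, 0], [0, 0, 0, 0], [0, 0, 0, 0]]]

/-- Pivots of the second certificate. -/
def dW : List (List ℚ) := [[129/100, 20051/38700, 36708693/32081600, 474628499/29366954400],
  [0, 2609/900, 6842251/9392400, 46771667/1368450200], [129/50, 119/6880, 351/23800, 0],
  [0, 13/200, 493/2600, 0]]

/-- Features of the second certificate. -/
def LW : List (List (List ℚ)) := [[[1, 73/258, -29/129, -80/129], [0, 1, 57121/80204, 55761/160408],
    [0, 0, 1, 3141511/24472462], [0, 0, 0, 1]],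
  [[0, 0, 0, 0], [0, 1, 2643/5218, 4509/5218], [0, 0, 1, -8160327/6842251], [0, 0, 0, 1]],
  [[1, 73/86, 29/43, 0], [0, 1, 38/119, 0], [0, 0, 1, 0], [0, 0, 0, 0]],
  [[0, 0, 0, 0], [0, 1, -51/13, 0], [0, 0, 1, 0], [0, 0, 0, 0]]]

/-- The feature of a type of support. -/
def ft (L : List (List (List ℚ))) (j k r s : ℕ) : ℚ :=
  if r + s = 3 then ((L.getD j []).getD k []).getD r 0
  else if s = 0 then (if j = 0 then -1 else 1) * ((L.getD j []).getD k []).getD 3 0 else 0

/-- A block of the certificate. -/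
def NN (d : List (List ℚ)) (L : List (List (List ℚ))) (j r s r' s' : ℕ) : ℚ :=
  ∑ k ∈ range 4, (d.getD j []).getD k 0 * (ft L j k r s * ft L j k r' s')

/-- The certificate as a function of the intersection numbers. -/
def ZZ (d : List (List ℚ)) (L : List (List (List ℚ))) (r s r' s' a b : ℕ) : ℚ :=
  NN d L 0 r s r' s' + NN d L 1 r s r' s' * (a - r * r' / 4) + NN d L 2 r s r' s' * (b - s * s' / 9)
    + NN d L 3 r s r' s' * ((a - r * r' / 4) * (b - s * s' / 9))

/-- The certificate as a kernel on labels. -/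
def ZL (d : List (List ℚ)) (L : List (List (List ℚ))) (R : Finset ι)
    (p q : Lb ι) : ℝ :=
  (ZZ d L (supp p ∩ R).card (supp p ∩ Rᶜ).card (supp q ∩ R).card (supp q ∩ Rᶜ).card
    (supp p ∩ supp q ∩ R).card (supp p ∩ supp q ∩ Rᶜ).card : ℚ)

theorem ZL_pos (hn : Fintype.card ι = 13) (d : List (List ℚ)) (L : List (List (List ℚ)))
    (hd : ∀ j < 4, ∀ k < 4, 0 ≤ (d.getD j []).getD k 0) (R : Finset ι) (hR : R.card = 4)
    {F : Finset (Lb ι)} {K : Lb ι → Lb ι → ℝ} (h : PosK F K) :
    PosK F (fun p q => ZL d L R p q * K p q) := by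
  have blk : ∀ j < 4, ∀ K' : Lb ι → Lb ι → ℝ, PosK F K' → PosK F (fun p q =>
      ((NN d L j (supp p ∩ R).card (supp p ∩ Rᶜ).card (supp q ∩ R).card (supp q ∩ Rᶜ).card : ℚ) : ℝ)
        * K' p q) := by
    intro j hj K' hK'
    refine (hK'.mul (range 4) (fun k => (((d.getD j []).getD k 0 : ℚ) : ℝ))
      (fun k hk => by exact_mod_cast hd j hj k (mem_range.mp hk))
      (fun k p => ((ft L j k (supp p ∩ R).card (supp p ∩ Rᶜ).card : ℚ) : ℝ))).congr ?_
    intro p _ q _
    unfold NN
    push_cast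
    rfl
  have hR1 : (R.card : ℝ) = 4 := by exact_mod_cast hR
  have hR2 : (Rᶜ.card : ℝ) = 9 := by
    rw [card_compl, hR, hn]; norm_num
  have h0 := blk 0 (by norm_num) _ h
  have h1 := blk 1 (by norm_num) _ (h.cent R 4 hR1 (by norm_num))
  have h2 := blk 2 (by norm_num) _ (h.cent Rᶜ 9 hR2 (by norm_num))
  have h3 := blk 3 (by norm_num) _ ((h.cent Rᶜ 9 hR2 (by norm_num)).cent R 4 hR1 (by norm_num))
  refine (((h0.add h1).add h2).add h3).congr ?_
  intro p _ q _
  unfold ZL ZZ
  push_cast
  ring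

/-- The weights as a function of the size of the support. -/
def wq (m : ℕ) : ℚ := if m = 1 then 6 else 1

theorem chk_pos : (∀ j < 4, ∀ k < 4, 0 ≤ (dU.getD j []).getD k 0)
    ∧ (∀ j < 4, ∀ k < 4, 0 ≤ (dW.getD j []).getD k 0) := by decide +kernel

set_option synthInstance.maxSize 4000 in
theorem chk_R : ∀ r < 4, ∀ s < 4, ∀ r' < 4, ∀ a < 4, (r + s = 1 ∨ r + s = 3) →
    (r' + s = 1 ∨ r' + s = 3) → r + r' = 4 + a →
    wq (r + s) * wq (r' + s) + ZZ dU LU r s r' s a s + ZZ dW LW r s r' s a s = 0 := by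
  decide +kernel

set_option synthInstance.maxSize 4000 in
theorem chk_0 : ∀ r < 4, ∀ s < 4, ∀ r' < 4, ∀ s' < 4, r + s = 3 → r' + s' = 3 → r + r' ≤ 4 →
    1 + ZZ dU LU r s r' s' 0 0 + ZZ dW LW r s r' s' 0 0 = 0 := by
  decide +kernel

set_option synthInstance.maxSize 4000 in
theorem chk_1 : ∀ r < 4, ∀ s < 4, ∀ r' < 4, ∀ s' < 4, ∀ a < 4, ∀ b < 4,
    (r + s = 3 ∧ r' + s' = 3 ∧ r + r' ≤ 4 + a ∧ a + b = 1 ∧ a ≤ r ∧ a ≤ r' ∧ b ≤ s ∧ b ≤ s') →
    1 + ZZ dU LU r s r' s' a b - ZZ dW LW r s r' s' a b = 0 := by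
  decide +kernel

theorem chk_diag : ∀ r < 4, ∀ s < 4, (r + s = 1 ∨ r + s = 3) →
    wq (r + s) * wq (r + s) + ZZ dU LU r s r s r s + ZZ dW LW r s r s r s
      ≤ 387 / 50 * wq (r + s) := by
  decide +kernel

theorem card_split (T R : Finset ι) : (T ∩ R).card + (T ∩ Rᶜ).card = T.card := by
  rw [← sdiff_eq_inter_compl, card_inter_add_card_sdiff]

theorem w13_eq (R : Finset ι) (p : Lb ι) :
    w13 p = (wq ((supp p ∩ R).card + (supp p ∩ Rᶜ).card) : ℚ) := by
  rw [card_split]
  unfold w13 wq
  split_ifs <;> simp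

theorem cert_R (hn : Fintype.card ι = 13) (ψ : (ι → Z2) → ℂ) (hψ : ip ψ ψ = 1) (h : Unif ψ 3)
    (R : Finset ι) (hR : R.card = 4) (h4 : ∀ T : Finset ι, T.card = 4 → T ≠ R → AA ψ T = 0) :
    ∑ p ∈ F13 ι, w13 p * bb ψ p ≤ 387 / 50 := by
  refine cert ψ hψ _ _ _ (by norm_num) (ZL dU LU R) (ZL dW LW R)
    (ZL_pos hn _ _ chk_pos.1 R hR (KK_pos _ _ _)) (ZL_pos hn _ _ chk_pos.2 R hR (KK_pos' _ _ _))
    ?_ ?_
  · intro p hp q hq hpq he
    have h1 := (mem_filter.mp hp).2
    have h2 := (mem_filter.mp hq).2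
    have e1 := card_split (supp p) R
    have e2 := card_split (supp q) R
    have e3 := card_split (supp p ∩ supp q) R
    have e4 := card_union_add_card_inter (supp p ∩ R) (supp q ∩ R)
    have e5 : supp p ∩ R ∩ (supp q ∩ R) = supp p ∩ supp q ∩ R := by
      ext; simp only [mem_inter]; tauto
    rw [e5] at e4
    have e6 : (supp p ∩ R ∪ supp q ∩ R).card ≤ R.card :=
      card_le_card (union_subset inter_subset_right inter_subset_right)
    by_cases h5 : 5 ≤ (supp (p + q)).card
    · have l1 : ∀ U : Finset ι, (supp p ∩ supp q ∩ U).card ≤ (supp p ∩ U).card := fun U =>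
        card_le_card (inter_subset_inter_right inter_subset_left)
      have l2 : ∀ U : Finset ι, (supp p ∩ supp q ∩ U).card ≤ (supp q ∩ U).card := fun U =>
        card_le_card (inter_subset_inter_right inter_subset_right)
      obtain ⟨c1, c2, ⟨c3, c4⟩ | ⟨c3, c4⟩⟩ := big_overlap hp hq h5
      · have := chk_0 _ (by omega) _ (by omega) _ (by omega) _ (by omega) (e1.trans c1)
          (e2.trans c2) (by omega)
        unfold ZL
        rw [c4, show (supp p ∩ supp q ∩ R).card = 0 by omega,
          show (supp p ∩ supp q ∩ Rᶜ).card = 0 by omega]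
        simp only [w13, c1, c2, sg_zero]
        norm_num
        exact_mod_cast this
      · have := chk_1 _ (by omega) _ (by omega) _ (by omega) _ (by omega) _ (by omega) _ (by omega)
          ⟨e1.trans c1, e2.trans c2, by omega, e3.trans c3, l1 R, l2 R, l1 Rᶜ, l2 Rᶜ⟩
        have h' := congrArg (Rat.cast : ℚ → ℝ) this
        unfold ZL
        rw [c4]
        simp only [w13, c1, c2, sg_one]
        push_cast at h' ⊢
        norm_num only [if_false]
        linarith
    · have hD4 : (supp (p + q)).card = 4 := by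
        by_contra hc
        exact he (h.expv hpq (by omega))
      have hD : supp (p + q) = R := by
        by_contra hc
        exact he (expv_of_AA (h4 _ hD4 hc))
      have s1 : supp p ∩ supp q ∩ Rᶜ = supp p ∩ Rᶜ := by
        ext i
        simp only [mem_inter, mem_compl]
        constructor
        · tauto
        · rintro ⟨a, b⟩
          refine ⟨⟨a, ?_⟩, b⟩
          by_contra c
          exact b (hD ▸ mem_supp_add_left a c)
      have s2 : supp q ∩ Rᶜ = supp p ∩ Rᶜ := by
        ext i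
        simp only [mem_inter, mem_compl]
        constructor
        · rintro ⟨a, b⟩
          refine ⟨?_, b⟩
          by_contra c
          exact b (hD ▸ mem_supp_add_right c a)
        · rintro ⟨a, b⟩
          refine ⟨?_, b⟩
          by_contra c
          exact b (hD ▸ mem_supp_add_left a c)
      have s3 : R.card ≤ (supp p ∩ R ∪ supp q ∩ R).card := by
        apply card_le_card
        intro i hi
        have := supp_add_subset p q (hD ▸ hi)
        simp only [mem_union, mem_inter] at this ⊢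
        tauto
      have c4 : sp p q = 0 := sp_eq_zero (by omega)
      rw [s2] at e2
      have := chk_R (supp p ∩ R).card (by omega) (supp p ∩ Rᶜ).card (by omega) (supp q ∩ R).card
        (by omega) (supp p ∩ supp q ∩ R).card (by omega) (by omega) (by omega) (by omega)
      rw [w13_eq R p, w13_eq R q]
      unfold ZL
      rw [c4, s1, s2, sg_zero, Int.cast_one, mul_one]
      exact_mod_cast this
  · intro p hp
    have h1 := (mem_filter.mp hp).2
    have e1 := card_split (supp p) R
    have := chk_diag (supp p ∩ R).card (by omega) (supp p ∩ Rᶜ).card (by omega) (by omega)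
    rw [w13_eq R p]
    unfold ZL
    rw [inter_self]
    have h' := (Rat.cast_le (K := ℝ)).mpr this
    push_cast at h'
    exact h'

end general

end Pool.Agent.MP_450e1b_mp
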