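import Mathlib

/-
A verified search on families of four-element subsets of a ten-element set, coded as bit masks.
-/

namespace Pool.Agent.MP_450e1b_mp

/-- Test a bit. -/
def tb (m i : ℕ) : Bool := Nat.beq (Nat.land (Nat.shiftRight m i) 1) 1

/-- Set a bit. -/
def sb (m i : ℕ) : ℕ := Nat.lor m (Nat.shiftLeft 1 i)

/-- Record the five-element supersets of `e` and their complements. -/
noncomputable def addLoop (e : ℕ) (ps : List ℕ) :
    ℕ → ℕ → List ℕ → (ℕ → ℕ → List ℕ → Bool) → Bool :=
  List.rec (fun U nb nw cont => cont U nb nw)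
    (fun p _ ih U nb nw cont =>
      Bool.rec (ih U nb nw cont)
        (Bool.rec (Nat.rec true (fun nb _ => ih (sb (sb U (Nat.add e p)) (Nat.sub 1023 (Nat.add e p)))
            nb (Nat.sub 1023 (Nat.add e p) :: nw) cont) nb)
          (ih U nb nw cont) (tb U (Nat.add e p)))
        (Nat.beq (Nat.land e p) 0)) ps

/-- The masks of the points. -/
def pts : List ℕ := [1, 2, 4, 8, 16, 32, 64, 128, 256, 512]

/-- Is some subset with one point less already chosen? -/
noncomputable def anySub (T inH : ℕ) (ps : List ℕ) : Bool :=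
  List.rec false (fun p _ ih => Bool.rec (Bool.rec ih true (tb inH (Nat.sub T p))) ih
    (Nat.beq (Nat.land T p) 0)) ps

/-- Branch over the subsets with one point less. -/
noncomputable def branch (T : ℕ) (f : ℕ → ℕ → Bool) (g : ℕ → Bool) (ps : List ℕ) : ℕ → Bool :=
  List.rec g (fun p _ ih ex => Bool.rec
    (Bool.rec (Bool.rec false (ih (sb ex (Nat.sub T p))) (f (Nat.sub T p) ex)) (ih ex)
      (tb ex (Nat.sub T p)))
    (ih ex) (Nat.beq (Nat.land T p) 0)) ps

/-- The search. -/
noncomputable def srch (fuel : ℕ) : ℕ → ℕ → ℕ → ℕ → List ℕ → ℕ → Bool :=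
  Nat.rec (fun _ _ _ _ _ _ => false) (fun _ ih inH ex U nb todo k =>
    List.rec false (fun T todo _ =>
      Bool.rec
        (branch T (fun e ex => addLoop e pts U nb [] (fun U' nb' nw =>
          ih (sb inH e) ex U' nb' (List.append todo nw) k))
          (fun ex => Nat.rec true (fun k _ => ih inH ex U nb todo k) k) pts ex)
        (ih inH ex U nb todo k) (anySub T inH pts)) todo) fuel

theorem srch_run : addLoop 15 pts 0 25 [] (fun U nb nw => addLoop 240 pts U nb nw (fun U nb nw =>
    srch 60 (sb (sb 0 15) 240) 0 U nb nw.reverse 4)) = true := by decide +kernel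

end Pool.Agent.MP_450e1b_mp
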