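import Mathlib
import Pool.Agent.MP_450e1b_mp.H20.Search

/-
Soundness of the search, and the combinatorial lemma on four-element subsets of ten points.
-/

namespace Pool.Agent.MP_450e1b_mp

open Finset

theorem tb_eq (m i : ℕ) : tb m i = m.testBit i := by
  have h : Nat.land (Nat.shiftRight m i) 1 = m >>> i % 2 := Nat.and_one_is_mod _
  unfold tb
  rw [h, Nat.testBit_eq_decide_div_mod_eq, Nat.shiftRight_eq_div_pow]
  rcases Nat.mod_two_eq_zero_or_one (m / 2 ^ i) with h | h <;> rw [h] <;> rfl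

theorem tb_sb (m i j : ℕ) : tb (sb m i) j = (tb m j || decide (i = j)) := by
  have h : sb m i = m ||| 2 ^ i := by
    unfold sb
    rw [show Nat.shiftLeft 1 i = 2 ^ i from Nat.one_shiftLeft i]
    rfl
  rw [tb_eq, tb_eq, h, Nat.testBit_or, Nat.testBit_two_pow]

section sound
variable (h cand : ℕ → Prop) (bad emp : Finset ℕ)

/-- The invariant of the search. -/
def SInv (U nb : ℕ) (l : List ℕ) : Prop :=
  ∃ 𝒰 : Finset ℕ, 𝒰 ⊆ bad ∧ 𝒰.card + 2 * nb = 50 ∧
    (∀ m ∈ 𝒰, tb U m = true ∧ m ≤ 1023 ∧ 1023 - m ∈ 𝒰) ∧ l.Nodup ∧ ∀ x ∈ l, x ∈ 𝒰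

theorem addLoop_sound (hbad : bad.card ≤ 51) (e : ℕ) (base : List ℕ)
    (cont : ℕ → ℕ → List ℕ → Bool)
    (hc : ∀ U nb nw, SInv bad U nb (base ++ nw) → (∀ x ∈ nw, cand x) → cont U nb nw = true → False)
    (ps : List ℕ) (hps : ∀ p ∈ ps, Nat.land e p = 0 →
      e + p ≤ 1023 ∧ e + p ∈ bad ∧ 1023 - (e + p) ∈ bad ∧ cand (1023 - (e + p))) :
    ∀ U nb nw, SInv bad U nb (base ++ nw) → (∀ x ∈ nw, cand x) →
      addLoop e ps U nb nw cont = true → False := by
  induction ps with
  | nil => exact hc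
  | cons p ps ih =>
    intro U nb nw hI hw hr
    have ih' := ih (fun q hq => hps q (List.mem_cons_of_mem _ hq))
    have hr' : (Bool.rec (addLoop e ps U nb nw cont)
        (Bool.rec (Nat.rec true (fun nb _ => addLoop e ps (sb (sb U (e + p)) (1023 - (e + p)))
            nb ((1023 - (e + p)) :: nw) cont) nb)
          (addLoop e ps U nb nw cont) (tb U (e + p)))
        (Nat.beq (Nat.land e p) 0) : Bool) = true := hr
    cases h0 : Nat.beq (Nat.land e p) 0
    · rw [h0] at hr'; exact ih' U nb nw hI hw hr'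
    rw [h0] at hr'
    cases h1 : tb U (e + p)
    swap
    · rw [h1] at hr'; exact ih' U nb nw hI hw hr'
    rw [h1] at hr'
    obtain ⟨a1, a2, a3, a4⟩ := hps p List.mem_cons_self (Nat.eq_of_beq_eq_true h0)
    obtain ⟨𝒰, b1, b2, b3, b4, b5⟩ := hI
    have n1 : e + p ∉ 𝒰 := fun hm => by rw [(b3 _ hm).1] at h1; exact absurd h1 (by simp)
    have n2 : 1023 - (e + p) ∉ 𝒰 := fun hm => n1 (by
      have := (b3 _ hm).2.2
      rwa [Nat.sub_sub_self a1] at this)
    have n3 : 1023 - (e + p) ∉ insert (e + p) 𝒰 := by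
      rw [mem_insert, not_or]; exact ⟨by omega, n2⟩
    have hsub : insert (1023 - (e + p)) (insert (e + p) 𝒰) ⊆ bad :=
      insert_subset a3 (insert_subset a2 b1)
    have hcard : (insert (1023 - (e + p)) (insert (e + p) 𝒰)).card = 𝒰.card + 2 := by
      rw [card_insert_of_notMem n3, card_insert_of_notMem n1]
    cases nb with
    | zero =>
      have := card_le_card hsub
      omega
    | succ nb =>
      refine ih' _ nb _ ⟨_, hsub, by omega, ?_, ?_, ?_⟩ ?_ hr'
      · intro m hm
        rw [tb_sb, tb_sb]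
        simp only [mem_insert] at hm ⊢
        rcases hm with rfl | rfl | hm
        · exact ⟨by simp, by omega, Or.inr (Or.inl (by omega))⟩
        · exact ⟨by simp, a1, Or.inl rfl⟩
        · exact ⟨by simp [(b3 m hm).1], (b3 m hm).2.1, Or.inr (Or.inr (b3 m hm).2.2)⟩
      · rw [List.nodup_middle, List.nodup_cons]
        exact ⟨fun hx => n2 (b5 _ hx), b4⟩
      · intro x hx
        rw [List.mem_append, List.mem_cons] at hx
        simp only [mem_insert]
        rcases hx with hx | rfl | hx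
        · exact Or.inr (Or.inr (b5 x (List.mem_append_left _ hx)))
        · exact Or.inl rfl
        · exact Or.inr (Or.inr (b5 x (List.mem_append_right _ hx)))
      · intro x hx
        rcases List.mem_cons.mp hx with rfl | hx
        · exact a4
        · exact hw x hx

theorem branch_sound (T : ℕ) (f : ℕ → ℕ → Bool) (g : ℕ → Bool)
    (hf : ∀ e ex, (∀ x, tb ex x = true → ¬ h x) → h e → f e ex = true → False) (ps : List ℕ) :
    (∀ ex, (∀ x, tb ex x = true → ¬ h x) → (∀ p ∈ ps, Nat.land T p ≠ 0 → ¬ h (T - p)) →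
      g ex = true → False) →
    ∀ ex, (∀ x, tb ex x = true → ¬ h x) → branch T f g ps ex = true → False := by
  induction ps with
  | nil => intro hg ex hex hr; exact hg ex hex (by simp) hr
  | cons p ps ih =>
    intro hg ex hex hr
    have hr' : (Bool.rec (Bool.rec (Bool.rec false (branch T f g ps (sb ex (T - p))) (f (T - p) ex))
        (branch T f g ps ex) (tb ex (T - p))) (branch T f g ps ex)
        (Nat.beq (Nat.land T p) 0) : Bool) = true := hr
    have ih' : (Nat.land T p ≠ 0 → ¬ h (T - p)) → ∀ ex, (∀ x, tb ex x = true → ¬ h x) →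
        branch T f g ps ex = true → False := fun hp => ih (fun ex' a b => hg ex' a (fun q hq => by
      rcases List.mem_cons.mp hq with rfl | hq
      · exact hp
      · exact b q hq))
    cases h0 : Nat.beq (Nat.land T p) 0
    swap
    · rw [h0] at hr'
      exact ih' (fun hp => absurd (Nat.eq_of_beq_eq_true h0) hp) ex hex hr'
    rw [h0] at hr'
    cases h1 : tb ex (T - p)
    swap
    · rw [h1] at hr'
      exact ih' (fun _ => hex _ h1) ex hex hr'
    rw [h1] at hr'
    cases h2 : f (T - p) ex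
    · rw [h2] at hr'; exact absurd hr' (by simp)
    rw [h2] at hr'
    have hn : ¬ h (T - p) := fun hh => hf _ ex hex hh h2
    refine ih' (fun _ => hn) _ (fun x hx => ?_) hr'
    rw [tb_sb, Bool.or_eq_true, decide_eq_true_eq] at hx
    rcases hx with hx | rfl
    · exact hex x hx
    · exact hn

theorem srch_sound (hbad : bad.card ≤ 51) (hemp : emp.card ≤ 4)
    (h1 : ∀ e, h e → ∀ p ∈ pts, Nat.land e p = 0 →
      e + p ≤ 1023 ∧ e + p ∈ bad ∧ 1023 - (e + p) ∈ bad ∧ cand (1023 - (e + p)))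
    (h2 : ∀ T, cand T → (∀ p ∈ pts, Nat.land T p ≠ 0 → ¬ h (T - p)) → T ∈ emp) (fuel : ℕ) :
    ∀ inH ex U nb todo k (D : List ℕ), (∀ x, tb ex x = true → ¬ h x) → SInv bad U nb (D ++ todo) →
      (∀ x ∈ todo, cand x) → (∀ x ∈ D, x ∈ emp) → D.length + k = 4 →
      srch fuel inH ex U nb todo k = true → False := by
  induction fuel with
  | zero => intro inH ex U nb todo k D _ _ _ _ _ hr; exact absurd hr (by simp [srch])
  | succ fuel ih =>
    intro inH ex U nb todo k D hex hI hc hD hk hr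
    cases todo with
    | nil => exact absurd hr (by simp [srch])
    | cons T todo =>
      have hr' : (Bool.rec (branch T (fun e ex => addLoop e pts U nb [] (fun U' nb' nw =>
          srch fuel (sb inH e) ex U' nb' (todo ++ nw) k))
          (fun ex => Nat.rec true (fun k _ => srch fuel inH ex U nb todo k) k) pts ex)
          (srch fuel inH ex U nb todo k) (anySub T inH pts) : Bool) = true := hr
      have hc' : ∀ x ∈ todo, cand x := fun x hx => hc x (List.mem_cons_of_mem _ hx)
      obtain ⟨𝒰, b1, b2, b3, b4, b5⟩ := hI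
      have b4' := List.nodup_cons.mp (List.nodup_middle.mp b4)
      have hI' : SInv bad U nb (D ++ todo) := ⟨𝒰, b1, b2, b3, b4'.2, fun x hx => b5 x (by
        rw [List.mem_append] at hx ⊢
        exact hx.imp id (List.mem_cons_of_mem _))⟩
      cases h0 : anySub T inH pts
      swap
      · rw [h0] at hr'; exact ih inH ex U nb todo k D hex hI' hc' hD hk hr'
      rw [h0] at hr'
      refine branch_sound h T _ _ ?_ pts ?_ ex hex hr'
      · intro e ex' hex' he hf
        refine addLoop_sound cand bad hbad e (D ++ todo) _ ?_ pts (h1 e he) U nb []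
          (by rwa [List.append_nil]) (by simp) hf
        intro U' nb' nw a b c
        refine ih _ ex' U' nb' (todo ++ nw) k D hex' (by rwa [← List.append_assoc]) ?_ hD hk c
        intro x hx
        exact (List.mem_append.mp hx).elim (hc' x) (b x)
      · intro ex' hex' hall hg
        have hT := h2 T (hc T List.mem_cons_self) hall
        have hD' : ∀ x ∈ T :: D, x ∈ emp := fun x hx => by
          rcases List.mem_cons.mp hx with rfl | hx
          · exact hT
          · exact hD x hx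
        have hnd : (T :: (D ++ todo)).Nodup := List.nodup_middle.mp b4
        cases k with
        | zero =>
          have a : (T :: D).Nodup := hnd.sublist (List.sublist_append_left (T :: D) todo)
          have b := card_le_card (fun x hx => hD' x (List.mem_toFinset.mp hx) :
            (T :: D).toFinset ⊆ emp)
          rw [List.toFinset_card_of_nodup a, List.length_cons] at b
          omega
        | succ k =>
          refine ih inH ex' U nb todo k (T :: D) hex' ⟨𝒰, b1, b2, b3, hnd, fun x hx => b5 x ?_⟩ hc'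
            hD' (by rw [List.length_cons]; omega) hg
          simp only [List.cons_append, List.mem_cons, List.mem_append] at hx ⊢
          tauto

theorem SInv_zero : SInv bad 0 25 ([] ++ []) := ⟨∅, by simp, by simp, by simp, by simp, by simp⟩

end sound

theorem full_run : addLoop 15 pts 0 25 [] (fun U nb nw => addLoop 23 pts U nb nw (fun U nb nw =>
    addLoop 27 pts U nb nw (fun U nb nw => addLoop 29 pts U nb nw (fun U nb nw =>
    addLoop 30 pts U nb nw (fun _ _ _ => false))))) = true := by decide +kernel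

theorem pts_add : ∀ m < 1024, ∀ i < 10, Nat.land m (2 ^ i) = 0 →
    m + 2 ^ i = m ||| 2 ^ i ∧ m.testBit i = false ∧ m + 2 ^ i ≤ 1023 := by decide +kernel

theorem pts_sub : ∀ m < 1024, ∀ i < 10, m.testBit i = true →
    Nat.land m (2 ^ i) ≠ 0 ∧ Nat.land (m - 2 ^ i) (2 ^ i) = 0 ∧ m - 2 ^ i + 2 ^ i = m := by
  decide +kernel

theorem mem_pts : ∀ p ∈ pts, ∃ i < 10, p = 2 ^ i := by decide

theorem pow_mem_pts : ∀ i < 10, 2 ^ i ∈ pts := by decide

section sets
variable {ι : Type*} [Fintype ι] [DecidableEq ι]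

/-- The set coded by a mask. -/
def toS (σ : ι ≃ Fin 10) (m : ℕ) : Finset ι := univ.filter (fun x => m.testBit (σ x))

omit [DecidableEq ι] in
theorem mem_toS {σ : ι ≃ Fin 10} {m : ℕ} {x : ι} : x ∈ toS σ m ↔ m.testBit (σ x) = true := by
  simp [toS]

theorem toS_add (σ : ι ≃ Fin 10) {m : ℕ} (hm : m < 1024) (i : Fin 10)
    (h : Nat.land m (2 ^ i.val) = 0) :
    toS σ (m + 2 ^ i.val) = insert (σ.symm i) (toS σ m) ∧ σ.symm i ∉ toS σ m := by
  obtain ⟨a, b, -⟩ := pts_add m hm i i.2 h
  refine ⟨?_, by simp [mem_toS, b]⟩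
  ext x
  rw [mem_insert, mem_toS, mem_toS, a, Nat.testBit_or, Nat.testBit_two_pow, Bool.or_eq_true,
    decide_eq_true_eq, Equiv.eq_symm_apply, or_comm, Fin.val_inj, eq_comm]

theorem toS_compl (σ : ι ≃ Fin 10) {m : ℕ} (hm : m ≤ 1023) : toS σ (1023 - m) = (toS σ m)ᶜ := by
  ext x
  rw [mem_compl, mem_toS, mem_toS, show 1023 - m = 2 ^ 10 - (m + 1) by omega,
    Nat.testBit_two_pow_sub_succ (by omega)]
  simp

omit [DecidableEq ι] in
theorem toS_inj (σ : ι ≃ Fin 10) {m m' : ℕ} (hm : m < 1024) (hm' : m' < 1024)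
    (h : toS σ m = toS σ m') : m = m' := by
  apply Nat.eq_of_testBit_eq
  intro i
  by_cases hi : i < 10
  · have := Finset.ext_iff.mp h (σ.symm ⟨i, hi⟩)
    simpa [mem_toS] using this
  · have : 2 ^ 10 ≤ 2 ^ i := Nat.pow_le_pow_right (by norm_num) (by omega)
    rw [Nat.testBit_eq_false_of_lt (by omega), Nat.testBit_eq_false_of_lt (by omega)]

theorem card_masks (σ : ι ≃ Fin 10) (B : Finset (Finset ι)) :
    ((range 1024).filter (fun m => toS σ m ∈ B)).card ≤ B.card :=
  card_le_card_of_injOn (toS σ) (fun _ hm => (mem_filter.mp hm).2) (fun _ ha _ hb hab =>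
    toS_inj σ (mem_range.mp (mem_filter.mp ha).1) (mem_range.mp (mem_filter.mp hb).1) hab)

omit [DecidableEq ι] in
theorem exists_equiv {κ : Type*} [DecidableEq κ] (f : ι → κ) (g : Fin 10 → κ)
    (h : ∀ c, (univ.filter (fun x => f x = c)).card = (univ.filter (fun i => g i = c)).card) :
    ∃ σ : ι ≃ Fin 10, ∀ x, g (σ x) = f x :=
  ⟨Equiv.ofFiberEquiv (fun c => Fintype.equivOfCardEq (by
    rw [Fintype.card_subtype, Fintype.card_subtype, h c])), Equiv.ofFiberEquiv_map _⟩

/-- Masks of complements of supersets of members of `H`. -/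
def Cand (σ : ι ≃ Fin 10) (H : Finset ι → Prop) (T : ℕ) : Prop :=
  T < 1024 ∧ ∃ R j, H R ∧ j ∉ R ∧ toS σ T = (insert j R)ᶜ

theorem sub_lt' {a b c : ℕ} (h : a < c) : a - b < c := lt_of_le_of_lt (Nat.sub_le _ _) h

theorem mask_h1 (σ : ι ≃ Fin 10) (H : Finset ι → Prop) (B : Finset (Finset ι))
    (h1 : ∀ R j, H R → j ∉ R → insert j R ∈ B ∧ (insert j R)ᶜ ∈ B) :
    ∀ e, (e < 1024 ∧ H (toS σ e)) → ∀ p ∈ pts, Nat.land e p = 0 →
      e + p ≤ 1023 ∧ e + p ∈ (range 1024).filter (fun m => toS σ m ∈ B) ∧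
      1023 - (e + p) ∈ (range 1024).filter (fun m => toS σ m ∈ B) ∧
      Cand σ H (1023 - (e + p)) := by
  rintro e ⟨he, hH⟩ p hp h0
  obtain ⟨i, hi, rfl⟩ := mem_pts p hp
  obtain ⟨a, b⟩ := toS_add σ he ⟨i, hi⟩ h0
  have c := (pts_add e he i hi h0).2.2
  obtain ⟨d1, d2⟩ := h1 _ _ hH b
  simp only at a
  refine ⟨c, mem_filter.mpr ⟨mem_range.mpr (by omega), by rwa [a]⟩,
    mem_filter.mpr ⟨mem_range.mpr (sub_lt' (by norm_num)), by rwa [toS_compl σ c, a]⟩,
    sub_lt' (by norm_num), _, _, hH, b, ?_⟩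
  rw [toS_compl σ c, a]

theorem toS_sub (σ : ι ≃ Fin 10) {m : ℕ} (hm : m < 1024) {x : ι} (hx : x ∈ toS σ m) :
    toS σ (m - 2 ^ (σ x).val) = (toS σ m).erase x := by
  obtain ⟨-, b, c⟩ := pts_sub m hm (σ x) (σ x).2 (mem_toS.mp hx)
  obtain ⟨d1, d2⟩ := toS_add σ (sub_lt' hm) (σ x) b
  rw [c, Equiv.symm_apply_apply] at d1
  rw [Equiv.symm_apply_apply] at d2
  rw [d1, erase_insert d2]

theorem comb_full (hn : Fintype.card ι = 10) (H : Finset ι → Prop) (B : Finset (Finset ι))
    (hB : B.card ≤ 51) (h1 : ∀ R j, H R → j ∉ R → insert j R ∈ B ∧ (insert j R)ᶜ ∈ B)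
    (T : Finset ι) (hT : T.card = 5) (hfull : ∀ i ∈ T, H (T.erase i)) : False := by
  obtain ⟨σ, hσ⟩ := exists_equiv (fun x => decide (x ∈ T)) (fun i => Nat.testBit 31 i) (by
    intro c
    cases c
    · rw [show univ.filter (fun x => decide (x ∈ T) = false) = Tᶜ by ext; simp, card_compl, hT, hn]
      decide
    · rw [show univ.filter (fun x => decide (x ∈ T) = true) = T by ext; simp, hT]
      decide)
  have e : toS σ 31 = T := by ext x; rw [mem_toS, hσ x]; simp
  have hs : ∀ i : Fin 10, i.val < 5 → 31 - 2 ^ i.val < 1024 ∧ H (toS σ (31 - 2 ^ i.val)) := by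
    intro i hi
    have hx : σ.symm i ∈ toS σ 31 := by
      rw [mem_toS, Equiv.apply_symm_apply]
      revert i; decide
    have := toS_sub σ (by norm_num) hx
    rw [Equiv.apply_symm_apply] at this
    exact ⟨sub_lt' (by norm_num), by rw [this, e]; exact hfull _ (e ▸ hx)⟩
  have hb := (card_masks σ B).trans hB
  have m1 := mask_h1 σ H B h1
  refine addLoop_sound _ _ hb 15 [] _ ?_ pts (m1 15 (hs 4 (by decide))) 0 25 [] (SInv_zero _)
    (by simp) full_run
  intro U nb nw a b
  refine addLoop_sound _ _ hb 23 [] _ ?_ pts (m1 23 (hs 3 (by decide))) U nb nw a b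
  intro U nb nw a b
  refine addLoop_sound _ _ hb 27 [] _ ?_ pts (m1 27 (hs 2 (by decide))) U nb nw a b
  intro U nb nw a b
  refine addLoop_sound _ _ hb 29 [] _ ?_ pts (m1 29 (hs 1 (by decide))) U nb nw a b
  intro U nb nw a b
  refine addLoop_sound _ _ hb 30 [] _ ?_ pts (m1 30 (hs 0 (by decide))) U nb nw a b
  intro U nb nw _ _ c
  exact absurd c (by simp)

theorem comb (hn : Fintype.card ι = 10) (H : Finset ι → Prop) (hH : ∀ R, H R → R.card = 4)
    (B E : Finset (Finset ι)) (hB : B.card ≤ 51) (hE : E.card ≤ 4)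
    (h1 : ∀ R j, H R → j ∉ R → insert j R ∈ B ∧ (insert j R)ᶜ ∈ B)
    (h2 : ∀ R j, H R → j ∉ R → (∀ i ∈ (insert j R)ᶜ, ¬ H ((insert j R)ᶜ.erase i)) →
      (insert j R)ᶜ ∈ E)
    (R : Finset ι) (hR : H R) : False := by
  have hR4 := hH R hR
  obtain ⟨R', hR', hd⟩ : ∃ R', H R' ∧ Disjoint R R' := by
    by_contra hcon
    push Not at hcon
    have : Rᶜ.card ≤ E.card := by
      refine card_le_card_of_injOn (fun j => (insert j R)ᶜ) (fun j hj => h2 R j hR (by simpa using hj)
        (fun i _ hi => hcon _ hi ?_)) ?_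
      · rw [Finset.disjoint_left]
        intro x hx hx'
        exact mem_compl.mp (mem_of_mem_erase hx') (mem_insert_of_mem hx)
      · intro a ha b _ hab
        have h3 : insert a R = insert b R := compl_injective hab
        have : a ∈ insert b R := h3 ▸ mem_insert_self _ _
        exact (mem_insert.mp this).resolve_right (by simpa using ha)
    rw [card_compl, hn, hR4] at this
    omega
  have hR4' := hH R' hR'
  have hd' := Finset.disjoint_left.mp hd
  obtain ⟨σ, hσ⟩ := exists_equiv (fun x => (decide (x ∈ R), decide (x ∈ R')))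
    (fun i => (Nat.testBit 15 i, Nat.testBit 240 i)) (by
    rintro ⟨c, d⟩
    cases c <;> cases d
    · rw [show univ.filter (fun x => (decide (x ∈ R), decide (x ∈ R')) = (false, false))
        = (R ∪ R')ᶜ by ext; simp, card_compl, card_union_of_disjoint hd, hR4, hR4', hn]
      decide
    · rw [show univ.filter (fun x => (decide (x ∈ R), decide (x ∈ R')) = (false, true)) = R' by
        ext x; simpa using fun a b => hd' b a, hR4']
      decide
    · rw [show univ.filter (fun x => (decide (x ∈ R), decide (x ∈ R')) = (true, false)) = R by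
        ext x; simpa using fun a => hd' a, hR4]
      decide
    · rw [show univ.filter (fun x => (decide (x ∈ R), decide (x ∈ R')) = (true, true)) = ∅ by
        ext x; simpa using fun a => hd' a, card_empty]
      decide)
  have e : toS σ 15 = R := by
    ext x; rw [mem_toS, (Prod.mk.inj (hσ x)).1]; simp
  have e' : toS σ 240 = R' := by
    ext x; rw [mem_toS, (Prod.mk.inj (hσ x)).2]; simp
  have hb := (card_masks σ B).trans hB
  have m1 := mask_h1 σ H B h1
  refine addLoop_sound _ _ hb 15 [] _ ?_ pts (m1 15 ⟨by norm_num, e ▸ hR⟩) 0 25 [] (SInv_zero _)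
    (by simp) srch_run
  intro U nb nw a b
  refine addLoop_sound _ _ hb 240 [] _ ?_ pts (m1 240 ⟨by norm_num, e' ▸ hR'⟩) U nb nw a b
  intro U nb nw a b
  refine srch_sound _ _ _ _ hb ((card_masks σ E).trans hE) m1 ?_ 60 _ 0 U nb _ 4 []
    (by simp [tb_eq]) ?_ (fun x hx => b x (List.mem_reverse.mp hx)) (by simp) rfl
  · rintro T ⟨hT, Q, j, q1, q2, q3⟩ hall
    refine mem_filter.mpr ⟨mem_range.mpr hT, q3 ▸ h2 Q j q1 q2 ?_⟩
    intro i hi hHi
    rw [← q3] at hi hHi
    refine hall _ (pow_mem_pts _ (σ i).2) (pts_sub T hT _ (σ i).2 (mem_toS.mp hi)).1 ⟨sub_lt' hT, ?_⟩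
    rwa [toS_sub σ hT hi]
  · obtain ⟨𝒰, b1, b2, b3, b4, b5⟩ := a
    exact ⟨𝒰, b1, b2, b3, by simpa using b4, fun x hx => b5 x (by simpa using hx)⟩

end sets

end Pool.Agent.MP_450e1b_mp
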