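import Mathlib
import Pool.Agent.MP_450e1b_mp.H20.Ten
import Pool.Agent.MP_450e1b_mp.H20.Comb

/-
Ten qubits: at least fifty-two five-element sets are not maximally mixed.
-/

namespace Pool.Agent.MP_450e1b_mp

open Finset

section general
variable {ι : Type*} [Fintype ι] [DecidableEq ι]

theorem mac_transform (ψ : (ι → Z2) → ℂ) (q : Lb ι) :
    ∑ p : Lb ι, (sg (sp p q) : ℝ) * aa ψ p = 2 ^ Fintype.card ι * aa ψ q := by
  have h1 := complete (pauli q.1 q.2 ψ) (pauli q.1 q.2 ψ) ψ ψ
  have h2 : ∀ p : Lb ι, ip (pauli q.1 q.2 ψ) (pauli p.1 p.2 (pauli q.1 q.2 ψ))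
      * ip (pauli p.1 p.2 ψ) ψ = (((sg (sp p q) : ℝ) * aa ψ p : ℝ) : ℂ) := by
    intro p
    rw [pauli_swap p q, ← one_smul ℂ (pauli q.1 q.2 ψ), ip_smul, ip_unitary,
      ← star_ip ψ (pauli p.1 p.2 ψ)]
    unfold aa expv
    push_cast
    rw [← mul_star_eq]
    simp only [star_one]
    ring
  simp only [h2] at h1
  have h4 : (2 : ℂ) ^ Fintype.card ι * ip (pauli q.1 q.2 ψ) ψ * ip ψ (pauli q.1 q.2 ψ)
      = ((2 ^ Fintype.card ι * aa ψ q : ℝ) : ℂ) := by
    unfold aa expv
    push_cast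
    rw [← mul_star_eq, star_ip]
    ring
  rw [h4] at h1
  exact_mod_cast h1

/-- The rescaled purity of the marginal on a set. -/
noncomputable def NP (ψ : (ι → Z2) → ℂ) (S : Finset ι) : ℝ :=
  ∑ p ∈ univ.filter (fun p : Lb ι => supp p ⊆ S), aa ψ p

theorem NP_eq (ψ : (ι → Z2) → ℂ) (S : Finset ι) : NP ψ S = ∑ T ∈ S.powerset, AA ψ T := by
  have := sum_AA ψ S.powerset (fun _ => 1)
  simp only [one_mul, mem_powerset] at this
  exact this.symm

theorem NP_compl (ψ : (ι → Z2) → ℂ) (S : Finset ι) :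
    4 ^ S.card * NP ψ Sᶜ = 2 ^ Fintype.card ι * NP ψ S := by
  unfold NP
  rw [Finset.mul_sum, Finset.mul_sum, ← Finset.sum_congr rfl (fun q _ => mac_transform ψ q),
    Finset.sum_comm, Finset.sum_filter]
  refine Finset.sum_congr rfl fun p _ => ?_
  rw [← Finset.sum_mul]
  have h2 : ∑ q ∈ univ.filter (fun q : Lb ι => supp q ⊆ S), (sg (sp p q) : ℝ)
      = if Disjoint S (supp p) then 4 ^ S.card else 0 := by exact_mod_cast sum_sg_sp p S
  rw [h2]
  have h3 : supp p ⊆ Sᶜ ↔ Disjoint S (supp p) := by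
    rw [disjoint_comm]; exact Finset.subset_compl_iff_disjoint_right
  simp only [h3]
  split_ifs <;> simp

theorem NP_one_iff (ψ : (ι → Z2) → ℂ) (hψ : ip ψ ψ = 1) (S : Finset ι) :
    NP ψ S = 1 ↔ ∀ T ⊆ S, T ≠ ∅ → AA ψ T = 0 := by
  rw [NP_eq, ← Finset.add_sum_erase _ _ (empty_mem_powerset S), AA_empty ψ hψ, add_eq_left,
    Finset.sum_eq_zero_iff_of_nonneg (fun T _ => AA_nonneg ψ T)]
  simp only [mem_erase, mem_powerset]
  tauto

theorem NP_le_four (ψ : (ι → Z2) → ℂ) (hψ : ip ψ ψ = 1) (S : Finset ι) (i : ι)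
    (h : NP ψ (S.erase i) = 1) : NP ψ S ≤ 4 := by
  have h1 : NP ψ S = ∑ p ∈ (univ.filter (fun p : Lb ι => supp p ⊆ S)).filter (fun p => i ∈ supp p),
      aa ψ p + NP ψ (S.erase i) := by
    unfold NP
    rw [← Finset.sum_filter_add_sum_filter_not _ (fun p => i ∈ supp p)]
    congr 2
    ext p
    simp [subset_erase]
  have h2 := bessel3 ψ hψ ((univ.filter (fun p : Lb ι => supp p ⊆ S)).filter (fun p => i ∈ supp p))
    (fun p => sy p i) (fun p hp => mem_supp.mp (mem_filter.mp hp).2) (by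
      intro p hp q hq hpq hs
      left
      refine expv_of_AA ((NP_one_iff ψ hψ _).mp h _ ((same_symbol hs).trans (erase_subset_erase i
        (union_subset (mem_filter.mp (mem_filter.mp hp).1).2 (mem_filter.mp (mem_filter.mp hq).1).2)))
        (fun h0 => hpq (lb_add_eq_zero (supp_eq_empty.mp h0)))))
  linarith

theorem NP_le_two (ψ : (ι → Z2) → ℂ) (hψ : ip ψ ψ = 1) (S : Finset ι) (hS : S.card = 5)
    (h : ∀ i ∈ S, NP ψ (S.erase i) = 1) : NP ψ S ≤ 2 := by
  have hne : (∅ : Finset ι) ≠ S := by rintro rfl; simp at hS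
  have key : ∀ f : Finset ι → ℝ, ∑ T ∈ S.powerset, f T * AA ψ T = f ∅ + f S * AA ψ S := by
    intro f
    rw [Finset.sum_eq_add ∅ S hne, AA_empty ψ hψ, mul_one]
    · rintro T hT ⟨a, b⟩
      obtain ⟨i, hi, hi'⟩ := exists_of_ssubset (ssubset_of_subset_of_ne (mem_powerset.mp hT) b)
      rw [(NP_one_iff ψ hψ _).mp (h i hi) T (subset_erase.mpr ⟨mem_powerset.mp hT, hi'⟩) a, mul_zero]
    · simp
    · simp
  have h1 := shadow_set ψ S
  rw [key (fun T => (-1) ^ T.card), hS] at h1
  have h2 := key (fun _ => 1)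
  simp only [one_mul] at h2
  rw [NP_eq, h2]
  have h3 := mm_nonneg ψ S
  have h4 : (0 : ℝ) < 2 ^ Fintype.card ι := by positivity
  norm_num at h1
  by_contra hc
  nlinarith

theorem card_sup (T : Finset ι) (k : ℕ) (hk : k ≤ Fintype.card ι) :
    ((univ.powersetCard k).filter (fun S => T ⊆ S)).card
      = (Fintype.card ι - T.card).choose (Fintype.card ι - k) := by
  rw [← card_compl, ← card_powersetCard]
  refine card_nbij' compl compl ?_ ?_ (fun _ _ => compl_compl _) (fun _ _ => compl_compl _)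
  · intro S hS
    obtain ⟨a, b⟩ := mem_filter.mp (mem_coe.mp hS)
    exact mem_coe.mpr (mem_powersetCard.mpr ⟨compl_subset_compl.mpr b,
      by rw [card_compl, (mem_powersetCard.mp a).2]⟩)
  · intro S hS
    obtain ⟨a, b⟩ := mem_powersetCard.mp (mem_coe.mp hS)
    refine mem_coe.mpr (mem_filter.mpr ⟨mem_powersetCard.mpr ⟨subset_univ _, ?_⟩, ?_⟩)
    · rw [card_compl, b]; omega
    · exact subset_compl_comm.mp a

theorem sum_sub (φ : Lb ι → ℝ) (k : ℕ) (hk : k ≤ Fintype.card ι) :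
    ∑ S ∈ (univ : Finset ι).powersetCard k, ∑ p ∈ univ.filter (fun p : Lb ι => supp p ⊆ S), φ p
      = ∑ p : Lb ι, ((Fintype.card ι - (supp p).card).choose (Fintype.card ι - k) : ℝ) * φ p := by
  simp only [Finset.sum_filter]
  rw [Finset.sum_comm]
  refine Finset.sum_congr rfl fun p _ => ?_
  rw [← Finset.sum_filter, Finset.sum_const, card_sup _ _ hk, nsmul_eq_mul]

theorem moment (ψ : (ι → Z2) → ℂ) (k : ℕ) (hk : k ≤ Fintype.card ι) :
    4 ^ k * ∑ p : Lb ι, ((Fintype.card ι - (supp p).card).choose k : ℝ) * bb ψ p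
      = 2 ^ Fintype.card ι * ∑ p : Lb ι,
        ((Fintype.card ι - (supp p).card).choose (Fintype.card ι - k) : ℝ)
          * ((-1) ^ (supp p).card * aa ψ p) := by
  have h1 := sum_mm ψ ∅ univ k
  simp only [disjoint_empty_left, if_true, empty_union, ← compl_eq_univ_sdiff, card_compl] at h1
  rw [← h1, ← sum_sub _ k hk, Finset.mul_sum, Finset.mul_sum]
  refine Finset.sum_congr rfl fun S hS => ?_
  have h2 := shadow_set ψ S
  rw [(mem_powersetCard.mp hS).2, sum_AA] at h2
  simpa only [mem_powerset] using h2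

theorem poly10 : ∀ W < 11, W % 2 = 0 → 6 * W.choose 1 + 15 * W.choose 3 + 4 * W.choose 5
    ≤ 12 * W.choose 2 + 12 * W.choose 4 := by decide +kernel

theorem poly10' : ∀ w < 11, (-1 : ℤ) ^ w * (-1536 * (10 - w).choose 9 + 768 * (10 - w).choose 8
    - 240 * (10 - w).choose 7 + 48 * (10 - w).choose 6 - 4 * (10 - w).choose 5)
    ≤ 4 * (10 - w).choose 5 - if w = 0 then 1536 else 0 := by decide +kernel

theorem sum_NP (hn : Fintype.card ι = 10) (ψ : (ι → Z2) → ℂ) (hψ : ip ψ ψ = 1) :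
    384 ≤ ∑ T ∈ (univ : Finset ι).powersetCard 5, NP ψ T := by
  have h1 := moment ψ 1 (by omega)
  have h2 := moment ψ 2 (by omega)
  have h3 := moment ψ 3 (by omega)
  have h4 := moment ψ 4 (by omega)
  have h5 := moment ψ 5 (by omega)
  have h6 := sum_sub (aa ψ) 5 (by omega)
  rw [hn] at h1 h2 h3 h4 h5 h6
  norm_num only at h1 h2 h3 h4 h5 h6
  have hw : ∀ p : Lb ι, (supp p).card < 11 := fun p => by
    have := card_le_univ (supp p); omega
  have k1 : 0 ≤ ∑ p : Lb ι, (-6 * (((10 - (supp p).card).choose 1 : ℝ) * bb ψ p)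
      + 12 * (((10 - (supp p).card).choose 2 : ℝ) * bb ψ p)
      - 15 * (((10 - (supp p).card).choose 3 : ℝ) * bb ψ p)
      + 12 * (((10 - (supp p).card).choose 4 : ℝ) * bb ψ p)
      - 4 * (((10 - (supp p).card).choose 5 : ℝ) * bb ψ p)) := by
    refine Finset.sum_nonneg fun p _ => ?_
    by_cases hpar : ((supp p).card + Fintype.card ι) % 2 = 1
    · rw [bb_parity ψ p hpar]; simp
    · have := hw p
      have e : ((6 * (10 - (supp p).card).choose 1 + 15 * (10 - (supp p).card).choose 3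
          + 4 * (10 - (supp p).card).choose 5 : ℕ) : ℝ)
          ≤ (12 * (10 - (supp p).card).choose 2 + 12 * (10 - (supp p).card).choose 4 : ℕ) :=
        Nat.cast_le.mpr (poly10 _ (by omega) (by omega))
      push_cast at e
      nlinarith [mul_le_mul_of_nonneg_right e (bb_nonneg ψ p)]
  have k2 : ∑ p : Lb ι,
      (-1536 * (((10 - (supp p).card).choose 9 : ℝ) * ((-1) ^ (supp p).card * aa ψ p))
      + 768 * (((10 - (supp p).card).choose 8 : ℝ) * ((-1) ^ (supp p).card * aa ψ p))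
      - 240 * (((10 - (supp p).card).choose 7 : ℝ) * ((-1) ^ (supp p).card * aa ψ p))
      + 48 * (((10 - (supp p).card).choose 6 : ℝ) * ((-1) ^ (supp p).card * aa ψ p))
      - 4 * (((10 - (supp p).card).choose 5 : ℝ) * ((-1) ^ (supp p).card * aa ψ p)))
      ≤ ∑ p : Lb ι, (4 * (((10 - (supp p).card).choose 5 : ℝ) * aa ψ p)
        - if p = 0 then 1536 * aa ψ p else 0) := by
    refine Finset.sum_le_sum fun p _ => ?_
    have e := (Int.cast_le (R := ℝ)).mpr (poly10' _ (hw p))
    simp only [card_eq_zero, supp_eq_empty] at e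
    push_cast at e
    have := mul_le_mul_of_nonneg_right e (aa_nonneg ψ p)
    split_ifs at this ⊢ <;> linarith
  have a0 : aa ψ 0 = 1 := by simp [aa, expv, hψ]
  simp only [Finset.sum_add_distrib, Finset.sum_sub_distrib, ← Finset.mul_sum, Finset.sum_ite_eq',
    mem_univ, if_true, a0] at k1 k2
  unfold NP
  linarith

theorem even_compl (B : Finset (Finset ι)) (h : ∀ T ∈ B, Tᶜ ∈ B) (x : ι) :
    B.card = 2 * (B.filter (fun T => x ∈ T)).card := by
  have h1 := card_filter_add_card_filter_not (s := B) (fun T => x ∈ T)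
  have h2 : (B.filter (fun T => ¬ x ∈ T)).card = (B.filter (fun T => x ∈ T)).card := by
    refine card_nbij' compl compl ?_ ?_ (fun _ _ => compl_compl _) (fun _ _ => compl_compl _)
    · intro T hT
      obtain ⟨a, b⟩ := mem_filter.mp (mem_coe.mp hT)
      exact mem_coe.mpr (mem_filter.mpr ⟨h T a, mem_compl.mpr b⟩)
    · intro T hT
      obtain ⟨a, b⟩ := mem_filter.mp (mem_coe.mp hT)
      exact mem_coe.mpr (mem_filter.mpr ⟨h T a, by simpa using b⟩)
  omega

theorem ten_five (hn : Fintype.card ι = 10) (ψ : (ι → Z2) → ℂ) (hψ : ip ψ ψ = 1)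
    (B₀ : Finset (Finset ι))
    (hB₀ : ∀ S : Finset ι, S.card = 5 → S ∉ B₀ → ∀ T ⊆ S, T ≠ ∅ → AA ψ T = 0) :
    52 ≤ B₀.card := by
  classical
  by_contra hcon
  set B := ((univ : Finset ι).powersetCard 5).filter (fun S => NP ψ S ≠ 1) with hBdef
  have memB : ∀ S, S ∈ B ↔ S.card = 5 ∧ NP ψ S ≠ 1 := by
    intro S; simp [hBdef, mem_powersetCard]
  have hB : B.card ≤ 51 := by
    have : B ⊆ B₀ := fun S hS => by
      by_contra hc
      exact ((memB S).mp hS).2 ((NP_one_iff ψ hψ S).mpr (hB₀ S ((memB S).mp hS).1 hc))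
    have := card_le_card this
    omega
  have dual : ∀ S : Finset ι, S.card = 5 → NP ψ Sᶜ = NP ψ S := by
    intro S hS
    have := NP_compl ψ S
    rw [hS, hn] at this
    norm_num at this
    exact this
  have cB : ∀ S ∈ B, Sᶜ ∈ B := by
    intro S hS
    obtain ⟨a, b⟩ := (memB S).mp hS
    exact (memB _).mpr ⟨by rw [card_compl, a, hn], by rwa [dual S a]⟩
  obtain ⟨x⟩ : Nonempty ι := Fintype.card_pos_iff.mp (by omega)
  have hB50 : (B.card : ℝ) ≤ 50 := by
    have := even_compl B cB x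
    exact_mod_cast (by omega)
  let H : Finset ι → Prop := fun R => R.card = 4 ∧ NP ψ R ≠ 1
  have h1 : ∀ R j, H R → j ∉ R → insert j R ∈ B ∧ (insert j R)ᶜ ∈ B := by
    rintro R j ⟨a, b⟩ hj
    have : insert j R ∈ B := (memB _).mpr ⟨by rw [card_insert_of_notMem hj, a], fun hc =>
      b ((NP_one_iff ψ hψ R).mpr fun T hT => (NP_one_iff ψ hψ _).mp hc T
        (hT.trans (subset_insert _ _)))⟩
    exact ⟨this, cB _ this⟩
  have light : ∀ S : Finset ι, S.card = 5 → ∀ i ∈ S, ¬ H (S.erase i) → NP ψ (S.erase i) = 1 := by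
    intro S hS i hi hc
    by_contra hc'
    exact hc ⟨by rw [card_erase_of_mem hi, hS], hc'⟩
  have four : ∀ S : Finset ι, S.card = 5 → NP ψ S ≤ 4 := by
    intro S hS
    by_contra hc
    exact comb_full hn H B hB h1 S hS (fun i hi => by
      by_contra hc'
      exact hc (NP_le_four ψ hψ S i (light S hS i hi hc')))
  have two : ∀ S : Finset ι, S.card = 5 → (∀ i ∈ S, ¬ H (S.erase i)) → NP ψ S ≤ 2 :=
    fun S hS h => NP_le_two ψ hψ S hS (fun i hi => light S hS i hi (h i hi))
  have hsum : 132 ≤ ∑ S ∈ B, (NP ψ S - 1) := by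
    have e1 := sum_NP hn ψ hψ
    have e2 : ∑ S ∈ B, (NP ψ S - 1) = ∑ S ∈ (univ : Finset ι).powersetCard 5, (NP ψ S - 1) := by
      refine Finset.sum_subset (filter_subset _ _) fun S hS hS' => ?_
      by_contra hc
      exact hS' (mem_filter.mpr ⟨hS, fun h => hc (by rw [h, sub_self])⟩)
    rw [e2, Finset.sum_sub_distrib, Finset.sum_const, card_powersetCard, card_univ, hn,
      show Nat.choose 10 5 = 252 by decide]
    norm_num
    linarith
  obtain ⟨R, hR⟩ : ∃ R, H R := by
    by_contra hc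
    push Not at hc
    have := Finset.sum_le_card_nsmul B (fun S => NP ψ S - 1) 1 (fun S hS => by
      have := two S ((memB S).mp hS).1 (fun i _ => hc _)
      linarith)
    rw [nsmul_eq_mul] at this
    linarith
  set E := B.filter (fun S => (∀ i ∈ S, ¬ H (S.erase i)) ∧ ∃ i ∈ Sᶜ, H (Sᶜ.erase i)) with hE
  refine comb hn H (fun _ h => h.1) B E hB ?_ h1 ?_ R hR
  · have e1 : ∀ S ∈ B, NP ψ S - 1
        ≤ 3 - 2 * (if S ∈ E then 1 else 0) - 2 * (if Sᶜ ∈ E then 1 else 0) := by
      intro S hS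
      have a := ((memB S).mp hS).1
      have b := four S a
      split_ifs with c d d
      · obtain ⟨i, hi, hi'⟩ := (mem_filter.mp c).2.2
        exact absurd hi' ((mem_filter.mp d).2.1 i hi)
      · have := two S a (mem_filter.mp c).2.1
        linarith
      · have := two Sᶜ ((memB _).mp (cB S hS)).1 (mem_filter.mp d).2.1
        rw [dual S a] at this
        linarith
      · linarith
    have e2 := hsum.trans (Finset.sum_le_sum e1)
    rw [Finset.sum_sub_distrib, Finset.sum_sub_distrib, ← Finset.mul_sum, ← Finset.mul_sum,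
      Finset.sum_boole, Finset.sum_boole, Finset.sum_const, nsmul_eq_mul] at e2
    have e3 : E.card ≤ (B.filter (fun S => S ∈ E)).card :=
      card_le_card fun S hS => mem_filter.mpr ⟨(mem_filter.mp hS).1, hS⟩
    have e4 : E.card ≤ (B.filter (fun S => Sᶜ ∈ E)).card :=
      card_le_card_of_injOn compl (fun S hS => mem_coe.mpr (mem_filter.mpr
        ⟨cB S (mem_filter.mp (mem_coe.mp hS)).1, by simpa using hS⟩))
        (fun _ _ _ _ h => compl_injective h)
    have e3' : (E.card : ℝ) ≤ (B.filter (fun S => S ∈ E)).card := by exact_mod_cast e3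
    have e4' : (E.card : ℝ) ≤ (B.filter (fun S => Sᶜ ∈ E)).card := by exact_mod_cast e4
    have : (E.card : ℝ) < 5 := by linarith
    have : E.card < 5 := by exact_mod_cast this
    omega
  · intro Q j hQ hj hall
    refine mem_filter.mpr ⟨(h1 Q j hQ hj).2, hall, j, by simp, ?_⟩
    rwa [compl_compl, erase_insert hj]

end general

/-- Adjacency masks of a graph on ten vertices. -/
def adj10' : Fin 10 → ℕ := ![974, 841, 641, 211, 104, 336, 443, 333, 227, 7]

theorem Qex_10_5 : Qex 10 5 = 200 := by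
  have h := le_Qex_of_graph adj10' (by decide +kernel) 5
  have e : (((List.finRange 10).sublistsLen 5).filter
      (fun l => chk adj10' (cmask l) l 0 false)).length = 200 := by decide +kernel
  have h2 := Qex_le_of_bad 10 5 52 (fun ψ hψ B hB => ten_five (Fintype.card_fin 10) ψ hψ B
    (fun S hS hS' T hT hne => AA_of_PM (hB S hS hS') hT hne))
  have e2 : Nat.choose 10 5 = 252 := by decide
  omega

end Pool.Agent.MP_450e1b_mp
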