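import Mathlib
import Pool.Agent.MP_450e1b_mp.H20.Cert13

/-
Thirteen qubits: at least fifteen five-element sets are not maximally mixed.
-/

namespace Pool.Agent.MP_450e1b_mp

open Finset

section general
variable {ι : Type*} [Fintype ι] [DecidableEq ι]

/-- The supersets with one more element. -/
def Sup (R : Finset ι) : Finset (Finset ι) :=
  (univ.powersetCard (R.card + 1)).filter (fun S => R ⊆ S)

theorem mem_Sup {R S : Finset ι} : S ∈ Sup R ↔ S.card = R.card + 1 ∧ R ⊆ S := by
  simp [Sup, mem_powersetCard]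

theorem card_Sup (R : Finset ι) : (Sup R).card = Fintype.card ι - R.card := by
  have : Sup R = Rᶜ.image (fun j => insert j R) := by
    ext S
    rw [mem_Sup, mem_image]
    constructor
    · rintro ⟨h1, h2⟩
      obtain ⟨a, ha, rfl⟩ := exists_eq_insert_iff.mpr ⟨h2, h1.symm⟩
      exact ⟨a, mem_compl.mpr ha, rfl⟩
    · rintro ⟨a, ha, rfl⟩
      exact ⟨card_insert_of_notMem (mem_compl.mp ha), subset_insert _ _⟩
  rw [this, card_image_of_injOn, card_compl]
  intro a ha b _ hab
  have : a ∈ insert b R := by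
    have h1 : insert a R = insert b R := hab
    rw [← h1]; exact mem_insert_self _ _
  exact (mem_insert.mp this).resolve_right (by simpa using ha)

theorem mm_five (hn : Fintype.card ι = 13) (ψ : (ι → Z2) → ℂ) (hψ : ip ψ ψ = 1) (h : Unif ψ 3)
    (R : Finset ι) (hR : R.card = 4) (h4 : ∀ T : Finset ι, T.card = 4 → T ≠ R → AA ψ T = 0)
    (S : Finset ι) (hS : S.card = 5) :
    mm ψ S = 8 + 8 * (if R ⊆ S then AA ψ R else 0) - 8 * AA ψ S := by
  have h1 := shadow_k ψ hψ h S
  have h2 : ∀ T ∈ S.powerset.filter (fun T => 3 < T.card), (-1) ^ T.card * AA ψ T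
      = (if T = R then AA ψ R else 0) - (if T = S then AA ψ S else 0) := by
    intro T hT
    obtain ⟨a, b⟩ := mem_filter.mp hT
    have a' := mem_powerset.mp a
    have c := card_le_card a'
    by_cases h5 : T.card = 5
    · have e : T = S := eq_of_subset_of_card_le a' (by omega)
      have e' : T ≠ R := by rintro rfl; omega
      rw [if_neg e', if_pos e, h5, e]; norm_num
    · have e : T ≠ S := by rintro rfl; omega
      have e4 : T.card = 4 := by omega
      rw [if_neg e, e4]
      split_ifs with e'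
      · rw [e']; norm_num
      · rw [h4 T e4 e']; norm_num
  rw [Finset.sum_congr rfl h2, Finset.sum_sub_distrib, Finset.sum_ite_eq', Finset.sum_ite_eq', hS,
    hn] at h1
  simp only [mem_filter, mem_powerset, hR, hS, subset_rfl] at h1
  norm_num at h1
  linarith

theorem poly13 : ∀ W < 14, W % 2 = 0 → 105 * W.choose 1 + 270 * W.choose 3 + 120 * W.choose 5
    = 210 * W.choose 2 + 240 * W.choose 4
      + (if W = 12 then 23040 else if W = 10 then 3840 else 0) := by
  decide +kernel

theorem t_ident (hn : Fintype.card ι = 13) (ψ : (ι → Z2) → ℂ) (hψ : ip ψ ψ = 1) (h : Unif ψ 3)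
    (R : Finset ι) (hR : R.card = 4) (h4 : ∀ T : Finset ι, T.card = 4 → T ≠ R → AA ψ T = 0) :
    4 * ∑ p ∈ F13 ι, w13 p * bb ψ p
      = 39 + AA ψ R - ∑ S ∈ (univ : Finset ι).powersetCard 5, AA ψ S := by
  have hlow : ∀ j ≤ 3, ∑ J ∈ (univ : Finset ι).powersetCard j, mm ψ (∅ ∪ J)
      = (Nat.choose 13 j : ℝ) * (8192 / 4 ^ j) := by
    intro j hj
    have : ∀ J ∈ (univ : Finset ι).powersetCard j, mm ψ (∅ ∪ J) = 8192 / 4 ^ j := by
      intro J hJ
      have hc := (mem_powersetCard.mp hJ).2
      have := shadow_low ψ hψ h J (by omega)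
      rw [hc, hn] at this
      rw [empty_union]
      field_simp
      linarith
    rw [Finset.sum_congr rfl this, Finset.sum_const, card_powersetCard, nsmul_eq_mul, card_univ, hn]
  have hfour : ∑ J ∈ (univ : Finset ι).powersetCard 4, mm ψ (∅ ∪ J) = 22880 + 32 * AA ψ R := by
    have : ∀ J ∈ (univ : Finset ι).powersetCard 4, mm ψ (∅ ∪ J) = 32 + 32 * AA ψ J := by
      intro J hJ
      have := shadow_next ψ hψ h J (mem_powersetCard.mp hJ).2
      rw [hn] at this
      rw [empty_union]
      norm_num at this ⊢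
      linarith
    rw [Finset.sum_congr rfl this, Finset.sum_add_distrib, Finset.sum_const, card_powersetCard,
      ← Finset.mul_sum, card_univ, hn, Finset.sum_eq_single R]
    · rw [show Nat.choose 13 4 = 715 by decide +kernel]
      norm_num
    · intro T hT hne
      exact h4 T (mem_powersetCard.mp hT).2 hne
    · intro hc
      exact absurd (mem_powersetCard.mpr ⟨subset_univ _, hR⟩) hc
  have hfive : ∑ J ∈ (univ : Finset ι).powersetCard 5, mm ψ (∅ ∪ J)
      = 10296 + 72 * AA ψ R - 8 * ∑ S ∈ (univ : Finset ι).powersetCard 5, AA ψ S := by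
    have : ∀ J ∈ (univ : Finset ι).powersetCard 5, mm ψ (∅ ∪ J)
        = 8 + 8 * (if R ⊆ J then AA ψ R else 0) - 8 * AA ψ J := by
      intro J hJ
      rw [empty_union]
      exact mm_five hn ψ hψ h R hR h4 J (mem_powersetCard.mp hJ).2
    have h9 := card_Sup R
    unfold Sup at h9
    rw [hR, hn] at h9
    rw [Finset.sum_congr rfl this, Finset.sum_sub_distrib, Finset.sum_add_distrib, Finset.sum_const,
      card_powersetCard, ← Finset.mul_sum, ← Finset.mul_sum, card_univ, hn, ← Finset.sum_filter,
      Finset.sum_const, h9]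
    have : Nat.choose 13 5 = 1287 := by decide +kernel
    rw [this]
    simp only [nsmul_eq_mul]
    push_cast
    ring
  have h1 := hlow 1 (by norm_num)
  have h2 := hlow 2 (by norm_num)
  have h3 := hlow 3 (by norm_num)
  rw [sum_mm] at h1 h2 h3 hfour hfive
  simp only [disjoint_empty_left, if_true] at h1 h2 h3 hfour hfive
  have key : 3840 * ∑ p ∈ F13 ι, w13 p * bb ψ p = ∑ p : Lb ι,
      (105 * (((univ \ supp p).card.choose 1 : ℝ) * bb ψ p)
      - 210 * (((univ \ supp p).card.choose 2 : ℝ) * bb ψ p)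
      + 270 * (((univ \ supp p).card.choose 3 : ℝ) * bb ψ p)
      - 240 * (((univ \ supp p).card.choose 4 : ℝ) * bb ψ p)
      + 120 * (((univ \ supp p).card.choose 5 : ℝ) * bb ψ p)) := by
    unfold F13
    rw [Finset.sum_filter, Finset.mul_sum]
    refine Finset.sum_congr rfl fun p _ => ?_
    have hc : (univ \ supp p).card + (supp p).card = 13 := by
      rw [card_sdiff_add_card_eq_card (subset_univ _), card_univ, hn]
    by_cases hpar : ((supp p).card + Fintype.card ι) % 2 = 1
    · rw [bb_parity ψ p hpar]; simp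
    · rw [hn] at hpar
      unfold w13
      generalize (univ \ supp p).card = W at hc
      generalize (supp p).card = m at hc hpar
      have e := congrArg (Nat.cast : ℕ → ℝ) (poly13 W (by omega) (by omega))
      push_cast at e
      by_cases m1 : m = 1
      · rw [if_pos (by omega : W = 12)] at e
        rw [if_pos (Or.inl m1), if_pos m1]
        linear_combination (-bb ψ p) * e
      · rw [if_neg (by omega : ¬ W = 12)] at e
        by_cases m3 : m = 3
        · rw [if_pos (by omega : W = 10)] at e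
          rw [if_pos (Or.inr m3), if_neg m1]
          linear_combination (-bb ψ p) * e
        · rw [if_neg (by omega : ¬ W = 10)] at e
          rw [if_neg (by omega)]
          linear_combination (-bb ψ p) * e
  simp only [Finset.sum_add_distrib, Finset.sum_sub_distrib, ← Finset.mul_sum] at key
  rw [h1, h2, h3, hfour, hfive] at key
  generalize ∑ S ∈ (univ : Finset ι).powersetCard 5, AA ψ S = X at key ⊢
  generalize ∑ p ∈ F13 ι, w13 p * bb ψ p = Y at key ⊢
  rw [show Nat.choose 13 1 = 13 by decide, show Nat.choose 13 2 = 78 by decide,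
    show Nat.choose 13 3 = 286 by decide +kernel] at key
  norm_num at key
  linarith

theorem star_R (ψ : (ι → Z2) → ℂ) (hψ : ip ψ ψ = 1) (h : Unif ψ 3)
    (R : Finset ι) (hR : R.card = 4) (h4 : ∀ T : Finset ι, T.card = 4 → T ≠ R → AA ψ T = 0) :
    AA ψ R + ∑ S ∈ Sup R, AA ψ S ≤ 3 := by
  have h1 := sum_AA ψ (insert R (Sup R)) (fun _ => 1)
  rw [Finset.sum_insert (fun hc => by have := (mem_Sup.mp hc).1; omega)] at h1
  simp only [one_mul] at h1
  rw [h1]
  obtain ⟨i, hi⟩ : R.Nonempty := card_pos.mp (by omega)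
  have hmem : ∀ p ∈ univ.filter (fun p : Lb ι => supp p ∈ insert R (Sup R)),
      R ⊆ supp p ∧ (supp p).card ≤ 5 := by
    intro p hp
    rcases mem_insert.mp (mem_filter.mp hp).2 with e | e
    · rw [e]; exact ⟨subset_rfl, by omega⟩
    · exact ⟨(mem_Sup.mp e).2, by have := (mem_Sup.mp e).1; omega⟩
  refine bessel3 ψ hψ _ (fun p => sy p i) (fun p hp => mem_supp.mp ((hmem p hp).1 hi)) ?_
  intro p hp q hq hpq hs
  obtain ⟨a1, a2⟩ := hmem p hp
  obtain ⟨b1, b2⟩ := hmem q hq
  have hsub := same_symbol hs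
  have c1 := card_le_card hsub
  rw [card_erase_of_mem (mem_union_left _ (a1 hi))] at c1
  have c2 := card_union_add_card_inter (supp p) (supp q)
  have c3 := card_le_card (subset_inter a1 b1)
  by_cases h5 : 5 ≤ (supp (p + q)).card
  · exact Or.inr (sp_eq_one (by omega))
  left
  by_cases h3 : (supp (p + q)).card ≤ 3
  · exact h.expv hpq h3
  · refine expv_of_AA (h4 _ (by omega) fun e => ?_)
    exact (mem_erase.mp (hsub (e ▸ hi))).1 rfl

theorem thirteen_bad (hn : Fintype.card ι = 13) (ψ : (ι → Z2) → ℂ) (hψ : ip ψ ψ = 1)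
    (B : Finset (Finset ι))
    (hB : ∀ S : Finset ι, S.card = 5 → S ∉ B → ∀ T ⊆ S, T ≠ ∅ → AA ψ T = 0) : 15 ≤ B.card := by
  by_contra hcon
  have supB : ∀ R T : Finset ι, R.card = 4 → T ⊆ R → T ≠ ∅ → AA ψ T ≠ 0 → Sup R ⊆ B := by
    intro R T hR hT hne hA S hS
    obtain ⟨a, b⟩ := mem_Sup.mp hS
    by_contra hc
    exact hA (hB S (by omega) hc T (hT.trans b) hne)
  have two : ∀ R R' : Finset ι, R.card = 4 → R'.card = 4 → Sup R ⊆ B → Sup R' ⊆ B → R = R' := by
    intro R R' hR hR' a b
    by_contra hne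
    have c1 := card_le_card (union_subset a b)
    have c2 := card_union_add_card_inter (Sup R) (Sup R')
    have c3 : (Sup R ∩ Sup R').card ≤ 1 := by
      have c4 : 5 ≤ (R ∪ R').card := by
        by_contra hc
        have e1 := eq_of_subset_of_card_le (subset_union_left : R ⊆ R ∪ R') (by omega)
        have e2 := eq_of_subset_of_card_le (subset_union_right : R' ⊆ R ∪ R') (by omega)
        exact hne (e1.trans e2.symm)
      have : ∀ S ∈ Sup R ∩ Sup R', R ∪ R' = S := by
        intro S hS
        obtain ⟨x, y⟩ := mem_inter.mp hS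
        exact eq_of_subset_of_card_le (union_subset (mem_Sup.mp x).2 (mem_Sup.mp y).2)
          (by have := (mem_Sup.mp x).1; omega)
      exact card_le_one.mpr fun x hx y hy => (this x hx).symm.trans (this y hy)
    rw [card_Sup, card_Sup, hn, hR, hR'] at c2
    omega
  have h3 : Unif ψ 3 := by
    intro T hne hT
    by_contra hA
    obtain ⟨T3, hT3, hc⟩ := exists_superset_card_eq hT (by omega : 3 ≤ Fintype.card ι)
    have h1 : 1 < (Sup T3).card := by rw [card_Sup, hn, hc]; norm_num
    obtain ⟨R, hR, R', hR', hne'⟩ := one_lt_card.mp h1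
    obtain ⟨a, b⟩ := mem_Sup.mp hR
    obtain ⟨a', b'⟩ := mem_Sup.mp hR'
    exact hne' (two R R' (by omega) (by omega) (supB R T (by omega) (hT3.trans b) hne hA)
      (supB R' T (by omega) (hT3.trans b') hne hA))
  have small : ∀ (𝒮 C : Finset (Finset ι)), (∀ S ∈ 𝒮, AA ψ S ≤ 1) →
      (∀ S ∈ 𝒮, AA ψ S ≠ 0 → S ∈ C) → ∑ S ∈ 𝒮, AA ψ S ≤ C.card := by
    intro 𝒮 C a b
    rw [← Finset.sum_filter_ne_zero]
    refine (Finset.sum_le_card_nsmul _ _ 1 fun S hS => a S (mem_filter.mp hS).1).trans ?_
    rw [nsmul_eq_mul, mul_one]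
    exact_mod_cast card_le_card fun S hS => b S (mem_filter.mp hS).1 (mem_filter.mp hS).2
  have inB : ∀ S : Finset ι, S.card = 5 → AA ψ S ≠ 0 → S ∈ B := by
    intro S hS hA
    by_contra hc
    exact hA (hB S hS hc S subset_rfl (by rintro rfl; simp at hS))
  by_cases hex : ∃ R : Finset ι, R.card = 4 ∧ AA ψ R ≠ 0
  · obtain ⟨R, hR, hA⟩ := hex
    have hne : ∀ T : Finset ι, T.card = 4 → T ≠ ∅ := by rintro T hT rfl; simp at hT
    have hRB := supB R R hR subset_rfl (hne R hR) hA
    have h4 : ∀ T : Finset ι, T.card = 4 → T ≠ R → AA ψ T = 0 := by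
      intro T hT hTR
      by_contra hc
      exact hTR (two T R hT hR (supB T T hT subset_rfl (hne T hT) hc) hRB)
    have e1 := t_ident hn ψ hψ h3 R hR h4
    have e2 := cert_R hn ψ hψ h3 R hR h4
    have e3 := star_R ψ hψ h3 R hR h4
    have e4 := small (((univ : Finset ι).powersetCard 5).filter (fun S => ¬ R ⊆ S)) (B \ Sup R)
      (fun S hS => by
        obtain ⟨a, b⟩ := mem_filter.mp hS
        have c := mm_five hn ψ hψ h3 R hR h4 S (mem_powersetCard.mp a).2
        rw [if_neg b] at c
        have := mm_nonneg ψ S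
        linarith)
      (fun S hS hA' => by
        obtain ⟨a, b⟩ := mem_filter.mp hS
        exact mem_sdiff.mpr ⟨inB S (mem_powersetCard.mp a).2 hA', fun c => b (mem_Sup.mp c).2⟩)
    have e5 : ((B \ Sup R).card : ℝ) ≤ 5 := by
      rw [card_sdiff_of_subset hRB, card_Sup, hn, hR]
      exact_mod_cast (by omega)
    rw [← Finset.sum_filter_add_sum_filter_not _ (fun S => R ⊆ S)] at e1
    unfold Sup at e3
    rw [hR] at e3
    have := AA_nonneg ψ R
    norm_num only at e3
    linarith
  · push Not at hex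
    have h4 : Unif ψ 4 := by
      intro T hne hT
      by_cases c : T.card ≤ 3
      · exact h3 T hne c
      · exact hex T (by omega)
    obtain ⟨R, -, hR⟩ := exists_subset_card_eq (s := (univ : Finset ι)) (n := 4)
      (by rw [card_univ, hn]; norm_num)
    have e1 := t_ident hn ψ hψ h3 R hR (fun T hT _ => hex T hT)
    have e2 := cert_unif hn ψ hψ h4
    have e4 := small ((univ : Finset ι).powersetCard 5) B
      (fun S hS => by
        have c := mm_five hn ψ hψ h3 R hR (fun T hT _ => hex T hT) S (mem_powersetCard.mp hS).2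
        rw [hex R hR, ite_self] at c
        have := mm_nonneg ψ S
        linarith)
      (fun S hS hA' => inB S (mem_powersetCard.mp hS).2 hA')
    have e5 : (B.card : ℝ) ≤ 14 := by exact_mod_cast (by omega)
    rw [hex R hR] at e1
    linarith

end general

/-- Adjacency masks of a graph on thirteen vertices. -/
def adj13 : Fin 13 → ℕ :=
  ![3884, 4804, 1707, 309, 2280, 5853, 5554, 7030, 3785, 7591, 4965, 913, 1762]

theorem Qex_13_5 : Qex 13 5 = 1272 := by
  have h := le_Qex_of_graph adj13 (by decide +kernel) 5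
  have e : (((List.finRange 13).sublistsLen 5).filter
      (fun l => chk adj13 (cmask l) l 0 false)).length = 1272 := by decide +kernel
  have h2 := Qex_le_of_bad 13 5 15 (fun ψ hψ B hB => thirteen_bad (Fintype.card_fin 13) ψ hψ B
    (fun S hS hS' T hT hne => AA_of_PM (hB S hS hS') hT hne))
  have e2 : Nat.choose 13 5 = 1287 := by decide +kernel
  omega

end Pool.Agent.MP_450e1b_mp
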